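import Mathlib

set_option autoImplicit false

namespace Pool.Agent.MisPer

/-- Atoms (indecomposable summands) of the construction, for the parameter `r` (period `r + 2`). -/
inductive Atom (r : ℕ) : Type
  | b : Atom r
  | c : Atom r
  | z : Atom r
  | H : Fin (2 ^ (4 * r + 9) - 1) → Atom r
  | s : Fin (4 * r + 6) → Atom r
  | y : Fin (4 * r + 6) → Atom r
  | e : Fin (4 * r + 6) → Atom r
deriving DecidableEq, Fintype

variable {r : ℕ}

/-- the value of the thin atom number `k` -/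
def w (k : ℕ) : ℕ := 2 ^ (k + 3)

def val : Atom r → ℕ
  | .b => 2
  | .c => 0
  | .z => 4
  | .H v => v.val + 1
  | .s _ => 4
  | .y k => w k.val
  | .e k => w k.val

/-- xor of the values -/
def gv (Y : Multiset (Atom r)) : ℕ := (Y.map val).foldr (fun x y => x ^^^ y) 0

theorem xlc (a b c : ℕ) : a ^^^ (b ^^^ c) = b ^^^ (a ^^^ c) := by
  rw [← Nat.xor_assoc, ← Nat.xor_assoc, Nat.xor_comm a b]

@[simp] theorem gv_zero : gv (0 : Multiset (Atom r)) = 0 := rfl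

@[simp] theorem gv_cons (x : Atom r) (Y : Multiset (Atom r)) : gv (x ::ₘ Y) = val x ^^^ gv Y := by
  simp [gv]

@[simp] theorem gv_singleton (x : Atom r) : gv ({x} : Multiset (Atom r)) = val x := by
  have := gv_cons x 0
  simpa using this

@[simp] theorem gv_add (X Y : Multiset (Atom r)) : gv (X + Y) = gv X ^^^ gv Y := by
  induction X using Multiset.induction with
  | empty => simp
  | cons a s ih => simp [ih, Nat.xor_assoc]

theorem w_ge (k : ℕ) : 8 ≤ w k := by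
  unfold w
  calc 8 = 2 ^ 3 := by norm_num
    _ ≤ 2 ^ (k + 3) := Nat.pow_le_pow_right (by norm_num) (by omega)

theorem w_mod (k : ℕ) : w k % 8 = 0 := by
  unfold w
  rw [pow_add]
  simp

theorem w_inj {j k : ℕ} (h : w j = w k) : j = k := by
  unfold w at h
  have := Nat.pow_right_injective (le_refl 2) h
  simpa using this

theorem w_lt (k : Fin (4 * r + 6)) : w k.val < 2 ^ (4 * r + 9) := by
  unfold w
  exact Nat.pow_lt_pow_right (by norm_num) (by omega)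

theorem M_gt : 256 < 2 ^ (4 * r + 9) := by
  calc 256 = 2 ^ 8 := by norm_num
    _ < 2 ^ (4 * r + 9) := Nat.pow_lt_pow_right (by norm_num) (by omega)

theorem val_lt (x : Atom r) : val x < 2 ^ (4 * r + 9) := by
  have hM := M_gt (r := r)
  cases x with
  | H v => simp only [val]; omega
  | y k => exact w_lt k
  | e k => exact w_lt k
  | b => simp only [val]; omega
  | c => simp only [val]; omega
  | z => simp only [val]; omega
  | s k => simp only [val]; omega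

theorem gv_lt (Y : Multiset (Atom r)) : gv Y < 2 ^ (4 * r + 9) := by
  induction Y using Multiset.induction with
  | empty => simp
  | cons a s ih => rw [gv_cons]; exact Nat.xor_lt_two_pow (val_lt a) ih

/-- the thick games `T_x` -/
def IsT (x : ℕ) (o : Multiset (Atom r)) : Prop :=
  (x = 0 ∧ o = {.b, .b}) ∨ ∃ v : Fin (2 ^ (4 * r + 9) - 1), x = v.val + 1 ∧ o = {.b, .b, .H v}

theorem isT_exists {x : ℕ} (h : x < 2 ^ (4 * r + 9)) : ∃ o : Multiset (Atom r), IsT x o := by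
  by_cases h0 : x = 0
  · exact ⟨_, Or.inl ⟨h0, rfl⟩⟩
  · exact ⟨_, Or.inr ⟨⟨x - 1, by omega⟩, by simp; omega, rfl⟩⟩

theorem isT_gv {x : ℕ} {o : Multiset (Atom r)} (h : IsT x o) : gv o = x := by
  rcases h with ⟨rfl, rfl⟩ | ⟨v, rfl, rfl⟩
  · simp [val]
  · simp only [Multiset.insert_eq_cons, gv_cons, gv_singleton, val]
    rw [← Nat.xor_assoc, Nat.xor_self, Nat.zero_xor]

theorem isT_b {x : ℕ} {o : Multiset (Atom r)} (h : IsT x o) : .b ∈ o := by
  rcases h with ⟨rfl, rfl⟩ | ⟨v, rfl, rfl⟩ <;> simp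

theorem isT_lt {x : ℕ} {o : Multiset (Atom r)} (h : IsT x o) : x < 2 ^ (4 * r + 9) := by
  rw [← isT_gv h]; exact gv_lt o

/-- options of an atom: replace it by `o` together with `δ` extra copies of `a = *1` -/
def Opt (x : Atom r) (δ : ℕ) (o : Multiset (Atom r)) : Prop :=
  match x with
  | .b => δ ≤ 1 ∧ o = 0
  | .H v => δ = 0 ∧ ∃ x, x ≤ v.val ∧ IsT x o
  | .c => (δ = 1 ∧ o = 0) ∨ (δ = 0 ∧ ∃ x, x ≠ 0 ∧ IsT x o)
  | .z => (δ = 1 ∧ o = {.c}) ∨ (δ = 0 ∧ ∃ x, x ≠ 1 ∧ x ≠ 4 ∧ IsT x o)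
  | .s k => (δ = 1 ∧ o = 0) ∨ (δ = 0 ∧ ∃ x, x ≠ 4 ∧ x ≠ w k.val ∧ IsT x o)
  | .y k => δ = 0 ∧ (o = {.z} ∨ (∃ x, x ≠ 4 ∧ x ≠ w k.val ∧ IsT x o) ∨
      (∃ j : Fin (4 * r + 6), j.val + 1 = k.val ∧ o = {.y j}) ∨
      ((k.val = 0 ∨ k.val + 1 = 2 * r + 4) ∧ o = 0))
  | .e k => δ = 0 ∧ (o = {.s k} ∨ ∃ x, x ≠ w k.val ∧ IsT x o)

/-- options of the game `u` -/
def EOpt (δ : ℕ) (o : Multiset (Atom r)) : Prop :=
  (δ ≤ 1 ∧ o = {.c}) ∨ (δ ≤ 1 ∧ ∃ k, o = {.e k}) ∨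
    (δ = 0 ∧ ∃ x, x ≠ 0 ∧ x ≠ 1 ∧ (∀ k : Fin (4 * r + 6), x ≠ w k.val ∧ x ≠ w k.val ^^^ 1) ∧ IsT x o)

/-- nim lemma for multisets -/
theorem nim_aux (Y : Multiset (Atom r)) : ∀ τ, τ < gv Y → ∃ x ∈ Y, val x ^^^ (gv Y ^^^ τ) < val x := by
  induction Y using Multiset.induction with
  | empty => intro τ h; simp at h
  | cons a s ih =>
    intro τ h
    rw [gv_cons] at h
    rcases Nat.lt_xor_cases h with h1 | h1
    · refine ⟨a, by simp, ?_⟩
      have : val a ^^^ (gv (a ::ₘ s) ^^^ τ) = τ ^^^ gv s := by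
        rw [gv_cons, Nat.xor_assoc, ← Nat.xor_assoc (val a), Nat.xor_self, Nat.zero_xor, Nat.xor_comm]
      rw [this]; exact h1
    · obtain ⟨x, hx, hlt⟩ := ih _ h1
      refine ⟨x, by simp [hx], ?_⟩
      have : gv (a ::ₘ s) ^^^ τ = gv s ^^^ (τ ^^^ val a) := by
        rw [gv_cons, Nat.xor_comm (val a), Nat.xor_assoc, Nat.xor_comm (val a)]
      rw [this]; exact hlt

theorem nim (a : ℕ) (Y : Multiset (Atom r)) (h : a ^^^ gv Y ≠ 0) :
    gv Y < a ∨ ∃ x ∈ Y, val x ^^^ (a ^^^ gv Y) < val x := by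
  rcases lt_trichotomy (gv Y) a with h1 | h1 | h1
  · exact Or.inl h1
  · exact absurd (by rw [h1, Nat.xor_self]) h
  · right
    obtain ⟨x, hx, hlt⟩ := nim_aux Y a h1
    exact ⟨x, hx, by rw [Nat.xor_comm a]; exact hlt⟩

end Pool.Agent.MisPer
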