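import Pool.Agent.MisPer.Main

set_option autoImplicit false

namespace Pool.Agent.MisPer

variable {r : ℕ}

theorem xor_e1 (v n l t : ℕ) : (v ^^^ (n ^^^ l ^^^ (v ^^^ t))) ^^^ (l ^^^ t) = n := by
  apply Nat.eq_of_testBit_eq
  intro i
  simp only [Nat.testBit_xor]
  cases v.testBit i <;> cases n.testBit i <;> cases l.testBit i <;> cases t.testBit i <;> rfl

theorem n_to_p {n i l : ℕ} {Y : Multiset (Atom r)} (h : ¬ PPc n i l Y) :
    ((n, i, l, Y) : Pos r) = 0 ∨ ∃ K, Mv K (n, i, l, Y) ∧ PP K := by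
  match i, h with
  | 0, h =>
    have h' : ¬ PP0 (l + n) Y := h
    rcases B_main h' with ⟨h1, rfl⟩ | ⟨l', h1, h2⟩ | ⟨x, δ, o, t, rfl, hO, hP⟩
    · left
      have : l = 0 := by omega
      have : n = 0 := by omega
      subst_vars
      rfl
    · right
      rcases Nat.eq_zero_or_pos l with hl | hl
      · subst hl
        obtain ⟨n', rfl⟩ : ∃ n', n = n' + 1 := ⟨n - 1, by omega⟩
        refine ⟨_, mv_d0, ?_⟩
        show PP0 (0 + n') Y
        rwa [show 0 + n' = l' by omega]
      · obtain ⟨l'', rfl⟩ : ∃ l'', l = l'' + 1 := ⟨l - 1, by omega⟩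
        refine ⟨_, mv_a, ?_⟩
        show PP0 (l'' + n) Y
        rwa [show l'' + n = l' by omega]
    · right
      refine ⟨_, mv_x hO, ?_⟩
      show PP0 (l + δ + n) (o + t)
      rwa [show l + δ + n = l + n + δ by ring]
  | 1, h => exact Or.inr (row1 h)
  | i + 2, h =>
    right
    by_cases hi : i % 2 = 0
    · have hG : G l Y ≠ n % 2 := fun h1 => h ⟨hi, h1⟩
      have hne : ((n % 2) ^^^ (l % 2)) ^^^ gv Y ≠ 0 := by
        intro h1
        rw [Nat.xor_assoc] at h1
        exact hG (Nat.xor_eq_zero_iff.1 h1).symm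
      rcases nim _ Y hne with h1 | ⟨x, hx, h1⟩
      · -- gv Y = 0, move an `a` or a `d`
        have h2 : ((n % 2) ^^^ (l % 2)) ≤ 1 := by
          rcases par n with h | h <;> rcases par l with h' | h' <;> rw [h, h'] <;> decide
        have h3 : gv Y = 0 := by omega
        have h4 : G l Y = l % 2 := by rw [G, h3, Nat.xor_zero]
        rw [h4] at hG
        rcases par l with hl | hl
        · obtain ⟨n', rfl⟩ : ∃ n', n = n' + 1 := ⟨n - 1, by omega⟩
          refine ⟨_, mv_d0, hi, ?_⟩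
          show G l Y = n' % 2
          rw [h4]; omega
        · obtain ⟨l', rfl⟩ : ∃ l', l = l' + 1 := ⟨l - 1, by omega⟩
          refine ⟨_, mv_a, hi, ?_⟩
          show G l' Y = n % 2
          rw [G, h3, Nat.xor_zero]; omega
      · obtain ⟨t, rfl⟩ := Multiset.exists_cons_of_mem hx
        obtain ⟨δ, o, hO, hτ⟩ := mex h1
        refine ⟨_, mv_x hO, hi, ?_⟩
        show G (l + δ) (o + t) = n % 2
        rw [G_add (opt_le hO), hτ, gv_cons, G]
        exact xor_e1 _ _ _ _
    · have hlt : (n % 2) ^^^ G l Y < 2 ^ (4 * r + 9) := by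
        apply Nat.xor_lt_two_pow _ (G_lt l Y)
        have := M_gt (r := r); omega
      obtain ⟨δ, o, hE, hτ⟩ := Emex hlt
      match i, hi with
      | i + 1, hi =>
        refine ⟨_, mv_u (i := i + 2) hE, ?_, ?_⟩
        · show i % 2 = 0
          omega
        · show G (l + δ) (o + Y) = n % 2
          rw [G_add (EOpt_le hE), hτ, Nat.xor_assoc, Nat.xor_self, Nat.xor_zero]

theorem not_PP_zero : ¬ PP (0 : Pos r) := by
  intro h
  have h1 : PP0 (0 + 0) (0 : Multiset (Atom r)) := h
  rcases h1 with ⟨-, h2⟩ | (⟨h2, -⟩ | ⟨-, k, h2⟩)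
  · exact h2 ⟨rfl, Or.inl rfl⟩
  · simp at h2
  · simp at h2

theorem has_move {g : Pos r} (hg : g ≠ 0) : ∃ K, Mv K g := by
  obtain ⟨n, i, l, Y⟩ := g
  rcases Nat.eq_zero_or_pos n with hn | hn
  · rcases Nat.eq_zero_or_pos i with hi | hi
    · rcases Nat.eq_zero_or_pos l with hl | hl
      · have hY : Y ≠ 0 := by
          rintro rfl
          apply hg
          subst_vars
          rfl
        obtain ⟨x, hx⟩ := Multiset.exists_mem_of_ne_zero hY
        obtain ⟨t, rfl⟩ := Multiset.exists_cons_of_mem hx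
        have hM := M_gt (r := r)
        by_cases h0 : 0 < val x
        · obtain ⟨δ, o, hO, -⟩ := mex h0
          exact ⟨_, mv_x hO⟩
        · cases x with
          | c => exact ⟨_, mv_x (δ := 1) (o := 0) (Or.inl ⟨rfl, rfl⟩)⟩
          | b => simp [val] at h0
          | z => simp [val] at h0
          | H v => simp [val] at h0
          | s k => simp [val] at h0
          | y k => exact absurd (w_ge k.val) (by simp only [val] at h0; omega)
          | e k => exact absurd (w_ge k.val) (by simp only [val] at h0; omega)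
      · obtain ⟨l', rfl⟩ : ∃ l', l = l' + 1 := ⟨l - 1, by omega⟩
        exact ⟨_, mv_a⟩
    · obtain ⟨i', rfl⟩ : ∃ i', i = i' + 1 := ⟨i - 1, by omega⟩
      exact ⟨_, mv_u (δ := 0) (o := {.c}) (Or.inl ⟨by omega, rfl⟩)⟩
  · obtain ⟨n', rfl⟩ : ∃ n', n = n' + 1 := ⟨n - 1, by omega⟩
    exact ⟨_, mv_d0⟩

theorem PP_rec (g : Pos r) : PP g ↔ (∃ K, Mv K g) ∧ ∀ K, Mv K g → ¬ PP K := by
  constructor
  · intro h
    refine ⟨has_move ?_, ?_⟩
    · rintro rfl; exact not_PP_zero h
    · rintro K ⟨x, y, t, hR, rfl, rfl⟩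
      exact pp_to_n t hR h
  · rintro ⟨⟨K, hK⟩, h⟩
    by_contra hP
    obtain ⟨n, i, l, Y⟩ := g
    rcases n_to_p (n := n) (i := i) (l := l) (Y := Y) hP with h0 | ⟨K', hK', hP'⟩
    · rw [h0] at hK
      obtain ⟨x, y, t, hR, h1, -⟩ := hK
      obtain ⟨n', i', l', Y'⟩ := t
      cases hR <;> simp only [Prod.mk_add_mk, Prod.ext_iff, Prod.fst_zero, Prod.snd_zero] at h1
      · omega
      · rename_i x δ o h
        have := h1.2.2.2
        rw [eq_comm, Multiset.singleton_add] at this
        simp at this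
      · omega
      · omega
      · omega
    · exact h K' hK' hP'

end Pool.Agent.MisPer
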