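import Pool.Agent.MisPer.Rows

set_option autoImplicit false

namespace Pool.Agent.MisPer

variable {r : ℕ}

/-- the outcome pattern on thin positions, `t` modulo `4 (r + 2)` -/
def chi (r t : ℕ) : Prop :=
  (t % (4 * r + 8) % 2 = 0 ∧ t % (4 * r + 8) < 2 * r + 4) ∨
    (t % (4 * r + 8) % 2 = 1 ∧ 2 * r + 4 < t % (4 * r + 8) ∧ t % (4 * r + 8) < 4 * r + 7)

theorem chi_congr {t t' : ℕ} (h : t % (4 * r + 8) = t' % (4 * r + 8)) : chi r t ↔ chi r t' := by
  unfold chi; rw [h]

theorem mod_add' (t s N : ℕ) (hs : s < N) :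
    (t + s) % N = t % N + s ∨ (N ≤ t % N + s ∧ (t + s) % N = t % N + s - N) := by
  have hN : 0 < N := by omega
  have h1 := Nat.mod_lt t hN
  have h2 : (t + s) % N = (t % N + s) % N := by rw [Nat.mod_add_mod]
  by_cases h3 : t % N + s < N
  · left; rw [h2, Nat.mod_eq_of_lt h3]
  · right
    refine ⟨by omega, ?_⟩
    rw [h2, Nat.mod_eq_sub_mod (by omega), Nat.mod_eq_of_lt (by omega)]

theorem f1 {t : ℕ} (h : chi r t) : ¬ chi r (t + 1) := by
  have h1 := mod_add' t 1 (4 * r + 8) (by omega)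
  have h2 := Nat.mod_lt t (show 0 < 4 * r + 8 by omega)
  have h3 := Nat.mod_lt (t + 1) (show 0 < 4 * r + 8 by omega)
  unfold chi at *
  generalize t % (4 * r + 8) = j at *
  generalize (t + 1) % (4 * r + 8) = j' at *
  omega

theorem f2 {t : ℕ} (h : chi r t) : ¬ chi r (t + (4 * r + 7)) := by
  have h1 := mod_add' t (4 * r + 7) (4 * r + 8) (by omega)
  have h2 := Nat.mod_lt t (show 0 < 4 * r + 8 by omega)
  have h3 := Nat.mod_lt (t + (4 * r + 7)) (show 0 < 4 * r + 8 by omega)
  unfold chi at *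
  generalize t % (4 * r + 8) = j at *
  generalize (t + (4 * r + 7)) % (4 * r + 8) = j' at *
  omega

theorem f3 {t : ℕ} (h : chi r t) : ¬ chi r (t + (2 * r + 4)) := by
  have h1 := mod_add' t (2 * r + 4) (4 * r + 8) (by omega)
  have h2 := Nat.mod_lt t (show 0 < 4 * r + 8 by omega)
  have h3 := Nat.mod_lt (t + (2 * r + 4)) (show 0 < 4 * r + 8 by omega)
  unfold chi at *
  generalize t % (4 * r + 8) = j at *
  generalize (t + (2 * r + 4)) % (4 * r + 8) = j' at *
  omega

theorem f4 {t : ℕ} (h : ¬ chi r t) : chi r (t + 1) ∨ chi r (t + (4 * r + 7)) := by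
  have h1 := mod_add' t 1 (4 * r + 8) (by omega)
  have h2 := Nat.mod_lt t (show 0 < 4 * r + 8 by omega)
  have h3 := Nat.mod_lt (t + 1) (show 0 < 4 * r + 8 by omega)
  have h4 := mod_add' t (4 * r + 7) (4 * r + 8) (by omega)
  have h5 := Nat.mod_lt (t + (4 * r + 7)) (show 0 < 4 * r + 8 by omega)
  unfold chi at *
  generalize t % (4 * r + 8) = j at *
  generalize (t + 1) % (4 * r + 8) = j' at *
  generalize (t + (4 * r + 7)) % (4 * r + 8) = j'' at *
  omega

abbrev Pos (r : ℕ) : Type := ℕ × ℕ × ℕ × Multiset (Atom r)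

/-- `P`-positions: `n` copies of `d`, `i` copies of `u`, `l` copies of `a`, and the atoms `Y` -/
def PPc (n : ℕ) : ℕ → ℕ → Multiset (Atom r) → Prop
  | 0, l, Y => PP0 (l + n) Y
  | 1, l, Y => ∃ k, Th k Y ∧ chi r (k + (4 * r + 7) * (n + l % 2))
  | (i + 2), l, Y => i % 2 = 0 ∧ G l Y = n % 2

def PP (g : Pos r) : Prop := PPc g.1 g.2.1 g.2.2.1 g.2.2.2

/-- replacement rules for the indecomposable summands -/
inductive R : Pos r → Pos r → Prop
  | a : R (0, 0, 1, 0) (0, 0, 0, 0)
  | x {x : Atom r} {δ : ℕ} {o : Multiset (Atom r)} : Opt x δ o → R (0, 0, 0, {x}) (0, 0, δ, o)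
  | u {δ : ℕ} {o : Multiset (Atom r)} : EOpt δ o → R (0, 1, 0, 0) (0, 0, δ, o)
  | d0 : R (1, 0, 0, 0) (0, 0, 0, 0)
  | d1 : R (1, 0, 0, 0) (0, 0, 0, {yl})

def Mv (K g : Pos r) : Prop := ∃ x y t, R x y ∧ g = x + t ∧ K = y + t

theorem G_succ (l : ℕ) (Y : Multiset (Atom r)) : G (l + 1) Y = 1 ^^^ G l Y := by
  rw [G_shift _ (le_refl _), xlc]; rfl

/-- parity of `l` versus `chi` -/
theorem chi_flip {k n l : ℕ} (h : chi r (k + (4 * r + 7) * (n + (l + 1) % 2))) :
    ¬ chi r (k + (4 * r + 7) * (n + l % 2)) := by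
  rcases par l with h1 | h1
  · rw [h1]
    rw [show (l + 1) % 2 = 1 by omega] at h
    intro h2
    apply f2 h2
    convert h using 1; ring
  · rw [h1]
    rw [show (l + 1) % 2 = 0 by omega] at h
    intro h2
    apply f2 h
    convert h2 using 1; ring

theorem chi_step {k n s : ℕ} (h : chi r (k + (4 * r + 7) * (n + 1 + s))) :
    ¬ chi r (k + (4 * r + 7) * (n + s)) := by
  intro h2
  apply f2 h2
  convert h using 1; ring

theorem chi_down {k s : ℕ} (h : chi r (k + 1 + (4 * r + 7) * s)) : ¬ chi r (k + (4 * r + 7) * s) := by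
  intro h2
  apply f1 h2
  convert h using 1; ring

theorem chi_half {s : ℕ} (h : chi r (2 * r + 4 + (4 * r + 7) * s)) : ¬ chi r (0 + (4 * r + 7) * s) := by
  intro h2
  apply f3 h2
  convert h using 1; ring

theorem chi_wrap {n s : ℕ} (h : chi r (0 + (4 * r + 7) * (n + 1 + s))) :
    ¬ chi r (4 * r + 6 + (4 * r + 7) * (n + s)) := by
  intro h2
  apply f1 h2
  convert h using 1; ring

theorem pp_to_n {x y : Pos r} (t : Pos r) (h : R x y) (hP : PP (x + t)) : ¬ PP (y + t) := by
  obtain ⟨n, i, l, Y⟩ := t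
  cases h with
  | a =>
    simp only [PP, Prod.mk_add_mk, zero_add] at hP ⊢
    rw [add_comm 1 l] at hP
    match i, hP with
    | 0, hP =>
      have hP' : PP0 (l + n + 1) Y := by
        have : PP0 (l + 1 + n) Y := hP
        rwa [show l + n + 1 = l + 1 + n by ring]
      exact A_a hP'
    | 1, hP =>
      obtain ⟨k, hk, hc⟩ := hP
      rintro ⟨k', hk', hc'⟩
      rw [Th_unique hk' hk] at hc'
      exact chi_flip hc hc'
    | i + 2, hP =>
      rintro ⟨-, h2⟩
      have h1 := hP.2
      rw [G_succ, h2] at h1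
      exact absurd h1 (by rcases par n with h | h <;> rw [h] <;> decide)
  | @x x δ o h =>
    simp only [PP, Prod.mk_add_mk, zero_add] at hP ⊢
    rw [Multiset.singleton_add] at hP
    match i, hP with
    | 0, hP =>
      have := A_x (l := l + n) hP h
      intro h2
      apply this
      have h3 : PP0 (δ + l + n) (o + Y) := h2
      rwa [show l + n + δ = δ + l + n by ring]
    | 1, hP =>
      obtain ⟨k, hk, hc⟩ := hP
      rintro ⟨k', hk', hc'⟩
      rcases hk with ⟨-, hk⟩ | ⟨j, rfl, hk⟩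
      · simp at hk
      rw [cons_eq_single] at hk
      obtain ⟨rfl, rfl⟩ := hk
      rw [add_zero] at hk'
      obtain ⟨rfl, rfl | ⟨x, -, -, hx⟩ | ⟨i, hj, rfl⟩ | ⟨hj, rfl⟩⟩ := h
      · rcases hk' with ⟨-, hk'⟩ | ⟨j', -, hk'⟩
        · simp at hk'
        · simp at hk'
      · have hb := isT_b hx
        rcases hk' with ⟨-, hk'⟩ | ⟨j', -, hk'⟩
        · rw [hk'] at hb; simp at hb
        · rw [hk'] at hb; simp at hb
      · have h1 : k' = i.val + 1 := Th_unique hk' (Or.inr ⟨i, rfl, rfl⟩)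
        rw [zero_add, h1, hj] at hc'
        exact chi_down hc hc'
      · have h1 : k' = 0 := Th_unique hk' (Or.inl ⟨rfl, rfl⟩)
        rw [zero_add, h1] at hc'
        rcases hj with hj | hj
        · rw [hj] at hc
          exact chi_down hc hc'
        · rw [hj] at hc
          exact chi_half hc hc'
    | i + 2, hP =>
      rintro ⟨-, h2⟩
      have h1 := hP.2
      rw [add_comm δ l] at h2
      exact G_move h (h2.trans h1.symm)
  | @u δ o h =>
    simp only [PP, Prod.mk_add_mk, zero_add] at hP ⊢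
    rw [add_comm 1 i] at hP
    match i, hP with
    | 0, hP =>
      obtain ⟨k, hk, -⟩ := hP
      have := C2 (l + n) hk h
      intro h2
      apply this
      have h3 : PP0 (δ + l + n) (o + Y) := h2
      rwa [show l + n + δ = δ + l + n by ring]
    | 1, hP =>
      rintro ⟨k, hk, -⟩
      exact EOpt_not_thin h k hk
    | i + 2, hP =>
      rintro ⟨h1, -⟩
      have h2 : (i + 1) % 2 = 0 := hP.1
      omega
  | d0 =>
    simp only [PP, Prod.mk_add_mk, zero_add] at hP ⊢
    rw [add_comm 1 n] at hP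
    match i, hP with
    | 0, hP =>
      exact A_a (l := l + n) hP
    | 1, hP =>
      obtain ⟨k, hk, hc⟩ := hP
      rintro ⟨k', hk', hc'⟩
      rw [Th_unique hk' hk] at hc'
      exact chi_step hc hc'
    | i + 2, hP =>
      rintro ⟨-, h2⟩
      have h1 := hP.2
      omega
  | d1 =>
    simp only [PP, Prod.mk_add_mk, zero_add] at hP ⊢
    rw [add_comm 1 n] at hP
    rw [Multiset.singleton_add]
    match i, hP with
    | 0, hP =>
      exact C0 (l := l + n) hP
    | 1, hP =>
      obtain ⟨k, hk, hc⟩ := hP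
      rintro ⟨k', hk', hc'⟩
      rcases hk' with ⟨-, hk'⟩ | ⟨j', rfl, hk'⟩
      · simp at hk'
      · rw [yl, cons_eq_single] at hk'
        obtain ⟨h1, rfl⟩ := hk'
        have h2 : j' = Fin.last (4 * r + 5) := by
          simp only [Atom.y.injEq] at h1
          exact h1.symm
        have h3 : k = 0 := Th_unique hk (Or.inl ⟨rfl, rfl⟩)
        subst h2
        rw [h3] at hc
        exact chi_wrap hc hc'
    | i + 2, hP =>
      rintro ⟨-, h2⟩
      have h1 := hP.2
      rw [G_cons, val_yl, h1] at h2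
      have h8 := w_ge (4 * r + 5)
      have h3 : w (4 * r + 5) = (n % 2) ^^^ ((n + 1) % 2) := by
        rw [← h2, Nat.xor_assoc, Nat.xor_self, Nat.xor_zero]
      have h4 : (n % 2) ^^^ ((n + 1) % 2) = 1 := by
        rcases par n with h | h
        · rw [h, show (n + 1) % 2 = 1 by omega]; rfl
        · rw [h, show (n + 1) % 2 = 0 by omega]; rfl
      omega

theorem mv_x {n i l δ : ℕ} {x : Atom r} {o t : Multiset (Atom r)} (h : Opt x δ o) :
    Mv (n, i, l + δ, o + t) (n, i, l, x ::ₘ t) :=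
  ⟨_, _, (n, i, l, t), R.x h, by simp [Multiset.singleton_add], by simp [add_comm]⟩

theorem mv_a {n i l : ℕ} {Y : Multiset (Atom r)} : Mv (n, i, l, Y) (n, i, l + 1, Y) :=
  ⟨_, _, (n, i, l, Y), R.a, by simp [add_comm], by simp⟩

theorem mv_u {n i l δ : ℕ} {o Y : Multiset (Atom r)} (h : EOpt δ o) :
    Mv (n, i, l + δ, o + Y) (n, i + 1, l, Y) :=
  ⟨_, _, (n, i, l, Y), R.u h, by simp [add_comm], by simp [add_comm]⟩

theorem mv_d0 {n i l : ℕ} {Y : Multiset (Atom r)} : Mv (n, i, l, Y) (n + 1, i, l, Y) :=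
  ⟨_, _, (n, i, l, Y), R.d0, by simp [add_comm], by simp⟩

theorem mv_d1 {n i l : ℕ} {Y : Multiset (Atom r)} : Mv (n, i, l, yl ::ₘ Y) (n + 1, i, l, Y) :=
  ⟨_, _, (n, i, l, Y), R.d1, by simp [add_comm], by simp [Multiset.singleton_add]⟩

theorem row1 {n l : ℕ} {Y : Multiset (Atom r)} (h : ¬ PPc n 1 l Y) :
    ∃ K, Mv K (n, 1, l, Y) ∧ PP K := by
  by_cases hth : ∃ k, Th k Y
  · obtain ⟨k, hk⟩ := hth
    have hc : ¬ chi r (k + (4 * r + 7) * (n + l % 2)) := fun hc => h ⟨k, hk, hc⟩
    -- move lowering `t` by one inside `Y`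
    have hdown : ∀ j : ℕ, k = j + 1 → chi r (j + (4 * r + 7) * (n + l % 2)) →
        ∃ K, Mv K (n, 1, l, Y) ∧ PP K := by
      intro j hj hcj
      rcases hk with ⟨rfl, -⟩ | ⟨i, rfl, rfl⟩
      · omega
      · have hij : i.val = j := by omega
        by_cases h0 : i.val = 0
        · refine ⟨(n, 1, l + 0, 0 + 0), ?_, ?_⟩
          · exact mv_x (x := .y i) (t := 0) ⟨rfl, Or.inr (Or.inr (Or.inr ⟨Or.inl h0, rfl⟩))⟩
          · refine ⟨0, Or.inl ⟨rfl, rfl⟩, ?_⟩
            rw [← hij, h0] at hcj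
            exact hcj
        · refine ⟨(n, 1, l + 0, {.y ⟨i.val - 1, by omega⟩} + 0), ?_, ?_⟩
          · exact mv_x (x := .y i) (t := 0) ⟨rfl, Or.inr (Or.inr (Or.inl ⟨⟨i.val - 1, by omega⟩, by simp; omega, rfl⟩))⟩
          · refine ⟨j, Or.inr ⟨⟨i.val - 1, by omega⟩, by simp; omega, by simp⟩, hcj⟩
    rcases Nat.eq_zero_or_pos n with hn | hn
    · subst hn
      rcases par l with hl | hl
      · -- t = k
        rw [hl] at hc
        simp only [add_zero, mul_zero] at hc
        have hk0 : k ≠ 0 := by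
          rintro rfl
          apply hc
          left
          simp
        obtain ⟨j, rfl⟩ := Nat.exists_eq_succ_of_ne_zero hk0
        have hle := Th_le hk
        by_cases hj : chi r j
        · apply hdown j rfl
          rw [hl]
          simpa using hj
        · have hj2 : j + 1 = 2 * r + 4 := by
            have e1 : j % (4 * r + 8) = j := Nat.mod_eq_of_lt (by omega)
            have e2 : (j + 1) % (4 * r + 8) = j + 1 := Nat.mod_eq_of_lt (by omega)
            rw [Nat.succ_eq_add_one] at hc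
            unfold chi at hj hc
            rw [e1] at hj
            rw [e2] at hc
            omega
          rcases hk with ⟨h1, -⟩ | ⟨i, h1, rfl⟩
          · omega
          · refine ⟨(0, 1, l + 0, 0 + 0), ?_, ?_⟩
            · exact mv_x (x := .y i) (t := 0) ⟨rfl, Or.inr (Or.inr (Or.inr ⟨Or.inr (by omega), rfl⟩))⟩
            · refine ⟨0, Or.inl ⟨rfl, rfl⟩, ?_⟩
              show chi r (0 + (4 * r + 7) * (0 + l % 2))
              rw [hl]
              left
              simp
      · -- t = k - 1, move the a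
        obtain ⟨l', rfl⟩ : ∃ l', l = l' + 1 := ⟨l - 1, by omega⟩
        have hl' : l' % 2 = 0 := by omega
        rw [hl] at hc
        rcases f4 hc with h1 | h1
        · refine ⟨_, mv_a, k, hk, ?_⟩
          show chi r (k + (4 * r + 7) * (0 + l' % 2))
          rw [hl']
          refine (chi_congr ?_).1 h1
          rw [show k + (4 * r + 7) * (0 + 1) + 1 = (k + (4 * r + 7) * (0 + 0)) + (4 * r + 8) by ring,
            Nat.add_mod_right]
        · by_cases hk0 : k = 0
          · subst hk0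
            refine ⟨_, mv_a, 0, hk, ?_⟩
            show chi r (0 + (4 * r + 7) * (0 + l' % 2))
            rw [hl']
            left
            simp
          · obtain ⟨j, rfl⟩ := Nat.exists_eq_succ_of_ne_zero hk0
            apply hdown j rfl
            rw [hl]
            refine (chi_congr ?_).1 h1
            rw [show Nat.succ j + (4 * r + 7) * (0 + 1) + (4 * r + 7) = (j + (4 * r + 7) * (0 + 1)) + (4 * r + 8) by
              rw [Nat.succ_eq_add_one]; ring, Nat.add_mod_right]
    · obtain ⟨n', rfl⟩ : ∃ n', n = n' + 1 := ⟨n - 1, by omega⟩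
      rcases f4 hc with h1 | h1
      · refine ⟨_, mv_d0, k, hk, ?_⟩
        show chi r (k + (4 * r + 7) * (n' + l % 2))
        refine (chi_congr ?_).1 h1
        rw [show k + (4 * r + 7) * (n' + 1 + l % 2) + 1 = (k + (4 * r + 7) * (n' + l % 2)) + (4 * r + 8) by ring,
          Nat.add_mod_right]
      · by_cases hk0 : k = 0
        · have hY : Y = 0 := by
            rcases hk with ⟨-, h⟩ | ⟨j, h, -⟩
            · exact h
            · omega
          subst hY
          subst hk0
          refine ⟨_, mv_d1, 4 * r + 6, Or.inr ⟨Fin.last _, by simp, rfl⟩, ?_⟩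
          show chi r (4 * r + 6 + (4 * r + 7) * (n' + l % 2))
          refine (chi_congr ?_).1 h1
          rw [show 0 + (4 * r + 7) * (n' + 1 + l % 2) + (4 * r + 7) =
            (4 * r + 6 + (4 * r + 7) * (n' + l % 2)) + (4 * r + 8) by ring, Nat.add_mod_right]
        · obtain ⟨j, rfl⟩ := Nat.exists_eq_succ_of_ne_zero hk0
          apply hdown j rfl
          refine (chi_congr ?_).1 h1
          rw [show Nat.succ j + (4 * r + 7) * (n' + 1 + l % 2) + (4 * r + 7) =
            (j + (4 * r + 7) * (n' + 1 + l % 2)) + (4 * r + 8) by rw [Nat.succ_eq_add_one]; ring, Nat.add_mod_right]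
  · obtain ⟨δ, o, hE, hP⟩ := C1 (l + n) (Y := Y) (fun k hk => hth ⟨k, hk⟩)
    refine ⟨_, mv_u (i := 0) hE, ?_⟩
    show PP0 (l + δ + n) (o + Y)
    rwa [show l + δ + n = l + n + δ by ring]

end Pool.Agent.MisPer
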