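import Pool.Agent.MisPer.Final

set_option autoImplicit false

namespace Pool.Agent.MisPer

variable {r : ℕ}

/-- the left sides of the replacement rules are prime -/
theorem prime {x y t g h : Pos r} (hR : R x y) (he : x + t = g + h) :
    (∃ g', g = x + g' ∧ t = g' + h) ∨ ∃ h', h = x + h' ∧ t = g + h' := by
  have key : (∃ g', g = x + g') ∨ ∃ h', h = x + h' := by
    obtain ⟨tn, ti, tl, tY⟩ := t
    obtain ⟨gn, gi, gl, gY⟩ := g
    obtain ⟨hn, hi, hl, hY⟩ := h
    cases hR with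
    | a =>
      simp only [Prod.mk_add_mk, Prod.mk.injEq] at he ⊢
      have : 0 < gl ∨ 0 < hl := by omega
      rcases this with h1 | h1
      · left; exact ⟨(gn, gi, gl - 1, gY), by simp; omega⟩
      · right; exact ⟨(hn, hi, hl - 1, hY), by simp; omega⟩
    | @x x δ o hO =>
      simp only [Prod.mk_add_mk, Prod.mk.injEq] at he ⊢
      have h1 : x ∈ gY + hY := by rw [← he.2.2.2]; simp
      rcases Multiset.mem_add.1 h1 with h1 | h1
      · left
        obtain ⟨Y', rfl⟩ := Multiset.exists_cons_of_mem h1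
        exact ⟨(gn, gi, gl, Y'), by simp [Multiset.singleton_add]⟩
      · right
        obtain ⟨Y', rfl⟩ := Multiset.exists_cons_of_mem h1
        exact ⟨(hn, hi, hl, Y'), by simp [Multiset.singleton_add]⟩
    | u hE =>
      simp only [Prod.mk_add_mk, Prod.mk.injEq] at he ⊢
      have : 0 < gi ∨ 0 < hi := by omega
      rcases this with h1 | h1
      · left; exact ⟨(gn, gi - 1, gl, gY), by simp; omega⟩
      · right; exact ⟨(hn, hi - 1, hl, hY), by simp; omega⟩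
    | d0 =>
      simp only [Prod.mk_add_mk, Prod.mk.injEq] at he ⊢
      have : 0 < gn ∨ 0 < hn := by omega
      rcases this with h1 | h1
      · left; exact ⟨(gn - 1, gi, gl, gY), by simp; omega⟩
      · right; exact ⟨(hn - 1, hi, hl, hY), by simp; omega⟩
    | d1 =>
      simp only [Prod.mk_add_mk, Prod.mk.injEq] at he ⊢
      have : 0 < gn ∨ 0 < hn := by omega
      rcases this with h1 | h1
      · left; exact ⟨(gn - 1, gi, gl, gY), by simp; omega⟩
      · right; exact ⟨(hn - 1, hi, hl, hY), by simp; omega⟩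
  rcases key with ⟨g', rfl⟩ | ⟨h', rfl⟩
  · left
    refine ⟨g', rfl, ?_⟩
    rw [add_assoc] at he
    exact add_left_cancel he
  · right
    refine ⟨h', rfl, ?_⟩
    rw [add_left_comm] at he
    exact add_left_cancel he

theorem ne_zero_left {x y : Pos r} (hR : R x y) : x ≠ 0 := by
  intro h
  cases hR <;> simp [Prod.ext_iff] at h

theorem Mv_add_iff {K g h : Pos r} :
    Mv K (g + h) ↔ (∃ g', Mv g' g ∧ K = g' + h) ∨ ∃ h', Mv h' h ∧ K = g + h' := by
  constructor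
  · rintro ⟨x, y, t, hR, he, rfl⟩
    rcases prime hR he.symm with ⟨g', rfl, rfl⟩ | ⟨h', rfl, rfl⟩
    · left; exact ⟨y + g', ⟨x, y, g', hR, rfl, rfl⟩, by rw [add_assoc]⟩
    · right; exact ⟨y + h', ⟨x, y, h', hR, rfl, rfl⟩, by rw [add_left_comm]⟩
  · rintro (⟨g', ⟨x, y, t, hR, rfl, rfl⟩, rfl⟩ | ⟨h', ⟨x, y, t, hR, rfl, rfl⟩, rfl⟩)
    · exact ⟨x, y, t + h, hR, by rw [add_assoc], by rw [add_assoc]⟩
    · exact ⟨x, y, g + t, hR, by rw [add_left_comm], by rw [add_left_comm]⟩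

theorem Mv_zero {K : Pos r} : ¬ Mv K 0 := by
  rintro ⟨x, y, t, hR, he, rfl⟩
  apply ne_zero_left hR
  obtain ⟨a, b, c, d⟩ := x
  obtain ⟨a', b', c', d'⟩ := t
  simp only [Prod.mk_add_mk, Prod.ext_iff, Prod.fst_zero, Prod.snd_zero] at he ⊢
  obtain ⟨h1, h2, h3, h4⟩ := he
  refine ⟨by omega, by omega, by omega, ?_⟩
  apply Multiset.eq_zero_of_forall_notMem
  intro x hx
  have : x ∈ d + d' := by simp [hx]
  rw [← h4] at this
  simp at this

theorem Mv_sum {s : Multiset (Pos r)} {K : Pos r} :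
    Mv K s.sum ↔ ∃ a t b, s = a ::ₘ t ∧ Mv b a ∧ K = b + t.sum := by
  induction s using Multiset.induction generalizing K with
  | empty =>
    constructor
    · intro h; exact absurd h Mv_zero
    · rintro ⟨a, t, b, h, -⟩; simp at h
  | cons x s ih =>
    rw [Multiset.sum_cons, Mv_add_iff]
    constructor
    · rintro (⟨g', h, rfl⟩ | ⟨h', h, rfl⟩)
      · exact ⟨x, s, g', rfl, h, rfl⟩
      · obtain ⟨a, t, b, rfl, h1, rfl⟩ := ih.1 h
        exact ⟨a, x ::ₘ t, b, Multiset.cons_swap _ _ _, h1, by rw [Multiset.sum_cons, add_left_comm]⟩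
    · rintro ⟨a, t, b, h1, h2, rfl⟩
      rcases Multiset.cons_eq_cons.1 h1 with ⟨rfl, rfl⟩ | ⟨hne, cs, rfl, rfl⟩
      · left; exact ⟨b, h2, rfl⟩
      · right
        refine ⟨b + cs.sum, ih.2 ⟨a, cs, b, rfl, h2, rfl⟩, ?_⟩
        rw [Multiset.sum_cons, add_left_comm]

/-- weights proving termination -/
def wA : Atom r → ℕ
  | .b => 2
  | .H v => 5 * (v.val + 1)
  | .c => 5 * 2 ^ (4 * r + 9)
  | .z => 5 * 2 ^ (4 * r + 9) + 2
  | .s _ => 5 * 2 ^ (4 * r + 9)
  | .y k => 5 * 2 ^ (4 * r + 9) + 3 + k.val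
  | .e _ => 5 * 2 ^ (4 * r + 9) + 1

def wY (Y : Multiset (Atom r)) : ℕ := (Y.map wA).sum

theorem wY_add (X Y : Multiset (Atom r)) : wY (X + Y) = wY X + wY Y := by simp [wY]
@[simp] theorem wY_single (x : Atom r) : wY {x} = wA x := by simp [wY]
@[simp] theorem wY_zero : wY (0 : Multiset (Atom r)) = 0 := by simp [wY]

def wt (g : Pos r) : ℕ :=
  g.1 * (5 * 2 ^ (4 * r + 9) + 4 * r + 20) + g.2.1 * (5 * 2 ^ (4 * r + 9) + 3) + g.2.2.1 + wY g.2.2.2

theorem wt_add (g h : Pos r) : wt (g + h) = wt g + wt h := by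
  simp only [wt, Prod.fst_add, Prod.snd_add, wY_add]
  ring

theorem wY_T {x : ℕ} {o : Multiset (Atom r)} (h : IsT x o) : wY o = 4 + 5 * x := by
  rcases h with ⟨rfl, rfl⟩ | ⟨v, rfl, rfl⟩
  · simp [wY, wA]
  · simp [wY, wA]; ring

theorem wt_R {x y : Pos r} (h : R x y) : wt y < wt x := by
  cases h with
  | a => simp [wt]
  | @x x δ o h =>
    simp only [wt, zero_mul, zero_add, wY_single]
    cases x with
    | b =>
      obtain ⟨h1, rfl⟩ := h
      simp only [wA, wY_zero]; omega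
    | H v =>
      obtain ⟨rfl, x, hx, h⟩ := h
      rw [wY_T h]
      simp only [wA]; omega
    | c =>
      have hM := M_gt (r := r)
      rcases h with ⟨rfl, rfl⟩ | ⟨rfl, x, hx, h⟩
      · simp only [wA, wY_zero]; omega
      · have := isT_lt h
        rw [wY_T h]; simp only [wA]; omega
    | z =>
      have hM := M_gt (r := r)
      rcases h with ⟨rfl, rfl⟩ | ⟨rfl, x, -, hx, h⟩
      · simp only [wA, wY_single]; omega
      · have := isT_lt h
        rw [wY_T h]; simp only [wA]; omega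
    | s k =>
      have hM := M_gt (r := r)
      rcases h with ⟨rfl, rfl⟩ | ⟨rfl, x, hx, -, h⟩
      · simp only [wA, wY_zero]; omega
      · have := isT_lt h
        rw [wY_T h]; simp only [wA]; omega
    | y k =>
      have hM := M_gt (r := r)
      obtain ⟨rfl, rfl | ⟨x, -, hx, h⟩ | ⟨j, hj, rfl⟩ | ⟨-, rfl⟩⟩ := h
      · simp only [wA, wY_single]; omega
      · have := isT_lt h
        rw [wY_T h]; simp only [wA]; omega
      · simp only [wA, wY_single]; omega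
      · simp only [wA, wY_zero]; omega
    | e k =>
      have hM := M_gt (r := r)
      obtain ⟨rfl, rfl | ⟨x, hx, h⟩⟩ := h
      · simp only [wA, wY_single]; omega
      · have := isT_lt h
        rw [wY_T h]; simp only [wA]; omega
  | u h =>
    simp only [wt, zero_mul, zero_add, one_mul, wY_zero]
    rcases h with ⟨h, rfl⟩ | ⟨h, k, rfl⟩ | ⟨rfl, x, -, -, -, h⟩
    · simp only [wA, wY_single]; omega
    · simp only [wA, wY_single]; omega
    · have := isT_lt h
      rw [wY_T h]; omega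
  | d0 => simp only [wt, zero_mul, one_mul, wY_zero]; omega
  | d1 =>
    simp only [wt, zero_mul, one_mul, wY_zero, wY_single, yl, wA, Fin.val_last]
    omega

theorem wt_Mv {K g : Pos r} (h : Mv K g) : wt K < wt g := by
  obtain ⟨x, y, t, hR, rfl, rfl⟩ := h
  rw [wt_add, wt_add]
  have := wt_R hR
  omega

theorem wf : WellFounded (Mv (r := r)) :=
  Subrelation.wf (h₁ := fun {_ _} h => wt_Mv h) (InvImage.wf wt (measure id).wf)

/-- all results of the rules -/
def resSet (r : ℕ) : Set (Multiset (Atom r)) :=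
  {o | (o = 0 ∨ ∃ x, o = {x}) ∨ ∃ v : Fin (2 ^ (4 * r + 9) - 1), o = {.b, .b, .H v}} ∪ {{.b, .b}}

theorem T_mem {x : ℕ} {o : Multiset (Atom r)} (h : IsT x o) : o ∈ resSet r := by
  rcases h with ⟨-, rfl⟩ | ⟨v, -, rfl⟩
  · right; rfl
  · left; right; exact ⟨v, rfl⟩

theorem res_mem {x y : Pos r} (h : R x y) : ∃ δ o, y = (0, 0, δ, o) ∧ δ ≤ 1 ∧ o ∈ resSet r := by
  cases h with
  | a => exact ⟨0, 0, rfl, by omega, Or.inl (Or.inl (Or.inl rfl))⟩
  | @x x δ o h =>
    refine ⟨δ, o, rfl, opt_le h, ?_⟩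
    have h0 : (0 : Multiset (Atom r)) ∈ resSet r := Or.inl (Or.inl (Or.inl rfl))
    have h1 : ∀ x, ({x} : Multiset (Atom r)) ∈ resSet r := fun x => Or.inl (Or.inl (Or.inr ⟨x, rfl⟩))
    cases x with
    | b => obtain ⟨-, rfl⟩ := h; exact h0
    | H v => obtain ⟨-, x, -, h⟩ := h; exact T_mem h
    | c =>
      rcases h with ⟨-, rfl⟩ | ⟨-, x, -, h⟩
      · exact h0
      · exact T_mem h
    | z =>
      rcases h with ⟨-, rfl⟩ | ⟨-, x, -, -, h⟩
      · exact h1 _
      · exact T_mem h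
    | s k =>
      rcases h with ⟨-, rfl⟩ | ⟨-, x, -, -, h⟩
      · exact h0
      · exact T_mem h
    | y k =>
      obtain ⟨-, rfl | ⟨x, -, -, h⟩ | ⟨j, -, rfl⟩ | ⟨-, rfl⟩⟩ := h
      · exact h1 _
      · exact T_mem h
      · exact h1 _
      · exact h0
    | e k =>
      obtain ⟨-, rfl | ⟨x, -, h⟩⟩ := h
      · exact h1 _
      · exact T_mem h
  | u h =>
    refine ⟨_, _, rfl, EOpt_le h, ?_⟩
    rcases h with ⟨-, rfl⟩ | ⟨-, k, rfl⟩ | ⟨-, x, -, -, -, h⟩
    · exact Or.inl (Or.inl (Or.inr ⟨_, rfl⟩))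
    · exact Or.inl (Or.inl (Or.inr ⟨_, rfl⟩))
    · exact T_mem h
  | d0 => exact ⟨0, 0, rfl, by omega, Or.inl (Or.inl (Or.inl rfl))⟩
  | d1 => exact ⟨0, _, rfl, by omega, Or.inl (Or.inl (Or.inr ⟨_, rfl⟩))⟩

theorem gen_mem {x y : Pos r} (h : R x y) :
    x = (0, 0, 1, 0) ∨ x = (0, 1, 0, 0) ∨ x = (1, 0, 0, 0) ∨ ∃ a, x = (0, 0, 0, {a}) := by
  cases h with
  | a => exact Or.inl rfl
  | x h => exact Or.inr (Or.inr (Or.inr ⟨_, rfl⟩))
  | u h => exact Or.inr (Or.inl rfl)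
  | d0 => exact Or.inr (Or.inr (Or.inl rfl))
  | d1 => exact Or.inr (Or.inr (Or.inl rfl))

theorem resSet_finite : (resSet r).Finite := by
  apply Set.Finite.union
  · have h1 : (Set.range (fun x : Atom r => ({x} : Multiset (Atom r)))).Finite := Set.finite_range _
    have h2 : (Set.range (fun v : Fin (2 ^ (4 * r + 9) - 1) => ({.b, .b, .H v} : Multiset (Atom r)))).Finite :=
      Set.finite_range _
    apply ((Set.finite_singleton (0 : Multiset (Atom r))).union (h1.union h2)).subset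
    rintro o ((rfl | ⟨x, rfl⟩) | ⟨v, rfl⟩)
    · left; rfl
    · right; left; exact ⟨x, rfl⟩
    · right; right; exact ⟨v, rfl⟩
  · exact Set.finite_singleton _

theorem R_finite : {q : Pos r × Pos r | R q.1 q.2}.Finite := by
  have h1 : (Set.range (fun a : Atom r => ((0, 0, 0, {a}) : Pos r))).Finite := Set.finite_range _
  have h2 : ({(0, 0, 1, 0), (0, 1, 0, 0), (1, 0, 0, 0)} : Set (Pos r)).Finite := by
    exact Set.toFinite _
  have h3 : ((fun q : ℕ × Multiset (Atom r) => ((0, 0, q.1, q.2) : Pos r)) '' (Set.Iic 1 ×ˢ resSet r)).Finite :=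
    ((Set.finite_Iic 1).prod resSet_finite).image _
  apply ((h2.union h1).prod h3).subset
  rintro ⟨x, y⟩ h
  refine ⟨?_, ?_⟩
  · rcases gen_mem h with h | h | h | ⟨a, h⟩
    · left; left; exact h
    · left; right; left; exact h
    · left; right; right; exact h
    · right; exact ⟨a, h.symm⟩
  · obtain ⟨δ, o, h4, h5, h6⟩ := res_mem h
    exact ⟨(δ, o), ⟨h5, h6⟩, h4.symm⟩

theorem Mv_finite (g : Pos r) : {K | Mv K g}.Finite := by
  have : {K | Mv K g} = ⋃ q ∈ {q : Pos r × Pos r | R q.1 q.2}, {K | ∃ t, g = q.1 + t ∧ K = q.2 + t} := by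
    ext K
    simp only [Set.mem_ofPred_eq, Set.mem_iUnion]
    constructor
    · rintro ⟨x, y, t, hR, h1, h2⟩
      exact ⟨(x, y), hR, t, h1, h2⟩
    · rintro ⟨⟨x, y⟩, hR, t, h1, h2⟩
      exact ⟨x, y, t, hR, h1, h2⟩
  rw [this]
  apply R_finite.biUnion
  rintro ⟨x, y⟩ -
  apply Set.Subsingleton.finite
  rintro K ⟨t, h1, rfl⟩ K' ⟨t', h2, rfl⟩
  have : t = t' := add_left_cancel (h1.symm.trans h2)
  rw [this]

theorem P_rec (s : Multiset (Pos r)) : PP s.sum ↔
    ((∃ a : Pos r, ∃ t : Multiset (Pos r), ∃ b : Pos r, s = a ::ₘ t ∧ Mv b a) ∧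
      ∀ a : Pos r, ∀ t : Multiset (Pos r), ∀ b : Pos r, s = a ::ₘ t → Mv b a → ¬ PP (b ::ₘ t).sum) := by
  rw [PP_rec]
  constructor
  · rintro ⟨⟨K, hK⟩, h⟩
    obtain ⟨a, t, b, h1, h2, h3⟩ := Mv_sum.1 hK
    refine ⟨⟨a, t, b, h1, h2⟩, ?_⟩
    intro a t b h1 h2
    rw [Multiset.sum_cons]
    exact h _ (Mv_sum.2 ⟨a, t, b, h1, h2, rfl⟩)
  · rintro ⟨⟨a, t, b, h1, h2⟩, h⟩
    refine ⟨⟨b + t.sum, Mv_sum.2 ⟨a, t, b, h1, h2, rfl⟩⟩, ?_⟩
    intro K hK
    obtain ⟨a, t, b, h1, h2, rfl⟩ := Mv_sum.1 hK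
    have := h a t b h1 h2
    rwa [Multiset.sum_cons] at this

end Pool.Agent.MisPer
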