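import Pool.Agent.MisPer.Zero3

set_option autoImplicit false

namespace Pool.Agent.MisPer

variable {r : ℕ}

/-- the last thin atom -/
def yl : Atom r := .y (Fin.last (4 * r + 5))

theorem val_yl : val (yl (r := r)) = w (4 * r + 5) := rfl

/-- Row `i = 0`: `d → y_last` is never to a `P`-position from a `P`-position -/
theorem C0 {l : ℕ} {Y : Multiset (Atom r)} (hP : PP0 (l + 1) Y) : ¬ PP0 l (yl ::ₘ Y) := by
  have hG1 : G (l + 1) Y = 1 ^^^ G l Y := by
    rw [G_shift _ (le_refl _), xlc]; rfl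
  have h8 := w_ge (4 * r + 5)
  have h88 := w_mod (4 * r + 5)
  rcases hP with ⟨h1, h2⟩ | h1
  · have hG : G l Y = 1 := by
      rw [hG1] at h1
      exact (Nat.xor_eq_zero_iff.1 h1).symm
    rintro (⟨h3, -⟩ | (⟨h3, h4 | h4⟩ | ⟨h3, k, h4⟩))
    · rw [G_cons, hG, val_yl] at h3
      have := Nat.xor_eq_zero_iff.1 h3
      omega
    · simp at h4
    · rw [yl, cons_eq_single] at h4; simp at h4
    · rw [yl, cons_eq_pair] at h4
      rcases h4 with ⟨h4, -⟩ | ⟨-, rfl⟩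
      · simp at h4
      · rw [G, h3, gv_singleton, val] at hG
        simp at hG
  · rcases h1 with ⟨h1, rfl | rfl⟩ | ⟨h1, k, rfl⟩
    · have h2 : l % 2 = 0 := by omega
      rintro (⟨h3, -⟩ | (⟨h3, h4⟩ | ⟨h3, k, h4⟩))
      · rw [G_cons, G, h2, val_yl] at h3
        simp at h3; omega
      · omega
      · rw [yl, cons_eq_pair] at h4
        rcases h4 with ⟨h4, -⟩ | ⟨-, h4⟩
        · simp at h4
        · simp at h4
    · have h2 : l % 2 = 0 := by omega
      rintro (⟨h3, -⟩ | (⟨h3, h4⟩ | ⟨h3, k, h4⟩))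
      · apply ne_of_mod8 _ h3
        rw [G_cons, G, h2, val_yl, gv_singleton, val, mod8, h88]
        decide
      · omega
      · rw [yl, cons_eq_pair] at h4
        rcases h4 with ⟨h4, -⟩ | ⟨-, h4⟩
        · simp at h4
        · simp at h4
    · have h2 : l % 2 = 1 := by omega
      rintro (⟨h3, -⟩ | (⟨h3, h4 | h4⟩ | ⟨h3, j, h4⟩))
      · apply ne_of_mod8 _ h3
        simp only [G, h2, Multiset.insert_eq_cons, gv_cons, gv_singleton, yl, val, mod8, w_mod]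
        decide
      · simp at h4
      · rw [yl, cons_eq_single] at h4; simp at h4
      · omega

/-- thin positions with their index -/
def Th (k : ℕ) (Y : Multiset (Atom r)) : Prop :=
  (k = 0 ∧ Y = 0) ∨ ∃ j : Fin (4 * r + 6), k = j.val + 1 ∧ Y = {.y j}

theorem Th_unique {k k' : ℕ} {Y : Multiset (Atom r)} (h : Th k Y) (h' : Th k' Y) : k = k' := by
  rcases h with ⟨rfl, rfl⟩ | ⟨j, rfl, rfl⟩ <;> rcases h' with ⟨rfl, h2⟩ | ⟨j', rfl, h2⟩
  · rfl
  · simp at h2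
  · simp at h2
  · have : j = j' := by simpa using h2
    rw [this]

theorem Th_le {k : ℕ} {Y : Multiset (Atom r)} (h : Th k Y) : k ≤ 4 * r + 6 := by
  rcases h with ⟨rfl, rfl⟩ | ⟨j, rfl, rfl⟩ <;> omega

/-- C1: from a non-thin position, `u` moves to a `P`-position -/
theorem C1 (l : ℕ) {Y : Multiset (Atom r)} (hY : ∀ k, ¬ Th k Y) :
    ∃ δ o, EOpt δ o ∧ PP0 (l + δ) (o + Y) := by
  have hlt := G_lt l Y
  by_cases h0 : G l Y ≤ 1
  · refine ⟨G l Y, {.c}, Or.inl ⟨h0, rfl⟩, Or.inl ⟨?_, ?_⟩⟩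
    · rw [G_add h0, gv_singleton, val, Nat.xor_zero, Nat.xor_self]
    · rintro ⟨-, h | h | ⟨i, h⟩ | ⟨i, h⟩⟩
      · simp at h
      · rw [Multiset.singleton_add, cons_eq_single] at h
        exact hY 0 (Or.inl ⟨rfl, h.2⟩)
      · rw [Multiset.singleton_add, cons_eq_pair] at h
        simp at h
      · rw [Multiset.singleton_add, cons_eq_pair] at h
        simp at h
  · by_cases hk : ∃ k : Fin (4 * r + 6), G l Y = w k.val ∨ G l Y = w k.val ^^^ 1
    · obtain ⟨k, hk⟩ := hk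
      obtain ⟨δ, hδ, hδ2⟩ : ∃ δ, δ ≤ 1 ∧ G l Y = δ ^^^ w k.val := by
        rcases hk with hk | hk
        · exact ⟨0, by omega, by rw [hk, Nat.zero_xor]⟩
        · exact ⟨1, by omega, by rw [hk, Nat.xor_comm]⟩
      refine ⟨δ, {.e k}, Or.inr (Or.inl ⟨hδ, k, rfl⟩), Or.inl ⟨?_, ?_⟩⟩
      · rw [G_add hδ, gv_singleton, val, hδ2, Nat.xor_self]
      · rintro ⟨-, h | h | ⟨i, h⟩ | ⟨i, h⟩⟩
        · simp at h
        · rw [Multiset.singleton_add, cons_eq_single] at h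
          simp at h
        · rw [Multiset.singleton_add, cons_eq_pair] at h
          simp at h
        · rw [Multiset.singleton_add, cons_eq_pair] at h
          rcases h with ⟨h, h1⟩ | ⟨h, -⟩
          · exact hY (i.val + 1) (Or.inr ⟨i, rfl, h1⟩)
          · simp at h
    · obtain ⟨o, ho⟩ := isT_exists (r := r) hlt
      refine ⟨0, o, Or.inr (Or.inr ⟨rfl, G l Y, by omega, by omega, ?_, ho⟩), ?_⟩
      · intro k
        exact ⟨fun h => hk ⟨k, Or.inl h⟩, fun h => hk ⟨k, Or.inr h⟩⟩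
      · apply PPT ho
        rw [G_add (by omega), isT_gv ho, Nat.zero_xor, Nat.xor_self]

theorem EOpt_le {δ : ℕ} {o : Multiset (Atom r)} (h : EOpt δ o) : δ ≤ 1 := by
  rcases h with ⟨h, -⟩ | ⟨h, -⟩ | ⟨h, -⟩ <;> omega

theorem EOpt_not_thin {δ : ℕ} {o Y : Multiset (Atom r)} (h : EOpt δ o) (k : ℕ) : ¬ Th k (o + Y) := by
  rcases h with ⟨-, rfl⟩ | ⟨-, i, rfl⟩ | ⟨-, x, -, -, -, hT⟩
  · rintro (⟨-, h⟩ | ⟨j, -, h⟩)
    · simp at h
    · rw [Multiset.singleton_add, cons_eq_single] at h; simp at h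
  · rintro (⟨-, h⟩ | ⟨j, -, h⟩)
    · simp at h
    · rw [Multiset.singleton_add, cons_eq_single] at h; simp at h
  · have hb : .b ∈ o + Y := by simp [isT_b hT]
    rintro (⟨-, h⟩ | ⟨j, -, h⟩)
    · rw [h] at hb; simp at hb
    · rw [h] at hb; simp at hb

/-- C2: from a thin position, `u` never moves to a `P`-position -/
theorem C2 (l : ℕ) {k δ : ℕ} {Y o : Multiset (Atom r)} (hY : Th k Y) (h : EOpt δ o) :
    ¬ PP0 (l + δ) (o + Y) := by
  rcases hY with ⟨rfl, rfl⟩ | ⟨j, rfl, rfl⟩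
  · rw [add_zero]
    rcases h with ⟨-, rfl⟩ | ⟨-, i, rfl⟩ | ⟨rfl, x, h0, h1, -, hT⟩
    · rintro (⟨h3, h4⟩ | (⟨h3, h4 | h4⟩ | ⟨h3, k, h4⟩))
      · rw [G, gv_singleton, val, Nat.xor_zero] at h3
        exact h4 ⟨h3, Or.inr (Or.inl rfl)⟩
      · simp at h4
      · simp at h4
      · rw [eq_comm, Multiset.insert_eq_cons, cons_eq_single] at h4; simp at h4
    · rintro (⟨h3, h4⟩ | (⟨h3, h4 | h4⟩ | ⟨h3, k, h4⟩))
      · rw [G, gv_singleton, val] at h3
        have := Nat.xor_eq_zero_iff.1 h3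
        have := w_ge i.val
        omega
      · simp at h4
      · simp at h4
      · rw [eq_comm, Multiset.insert_eq_cons, cons_eq_single] at h4; simp at h4
    · have := not_PPT (l := l) (t := 0) hT
      rw [add_zero] at this
      apply this
      rw [G, isT_gv hT]
      intro h3
      have := Nat.xor_eq_zero_iff.1 h3
      omega
  · have h8 := w_ge j.val
    have h88 := w_mod j.val
    rcases h with ⟨-, rfl⟩ | ⟨-, i, rfl⟩ | ⟨rfl, x, h0, h1, hx, hT⟩
    · rintro (⟨h3, h4⟩ | (⟨h3, h4 | h4⟩ | ⟨h3, k, h4⟩))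
      · rw [G, gv_add, gv_singleton, gv_singleton, val, val, Nat.zero_xor] at h3
        have := Nat.xor_eq_zero_iff.1 h3
        omega
      · simp at h4
      · rw [Multiset.singleton_add, cons_eq_single] at h4; simp at h4
      · rw [Multiset.singleton_add, cons_eq_pair] at h4; simp at h4
    · rintro (⟨h3, h4⟩ | (⟨h3, h4 | h4⟩ | ⟨h3, k, h4⟩))
      · rw [G, gv_add, gv_singleton, gv_singleton, val, val] at h3
        have h5 := Nat.xor_eq_zero_iff.1 h3
        have h6 : ((w i.val) ^^^ (w j.val)) % 8 = 0 := by rw [mod8, w_mod, w_mod]; rfl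
        have h7 : (l + δ) % 2 = 0 := by omega
        rw [h7] at h5
        have h9 := Nat.xor_eq_zero_iff.1 h5.symm
        have h10 := Fin.ext (w_inj h9)
        subst h10
        exact h4 ⟨h7, Or.inr (Or.inr (Or.inr ⟨i, rfl⟩))⟩
      · simp at h4
      · rw [Multiset.singleton_add, cons_eq_single] at h4; simp at h4
      · rw [Multiset.singleton_add, cons_eq_pair] at h4; simp at h4
    · apply not_PPT hT
      rw [G, gv_add, isT_gv hT, gv_singleton, val, add_zero]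
      intro h3
      have h5 := Nat.xor_eq_zero_iff.1 h3
      have h6 : x = (l % 2) ^^^ w j.val := by
        rw [h5, Nat.xor_assoc, Nat.xor_self, Nat.xor_zero]
      rcases par l with h7 | h7
      · rw [h7, Nat.zero_xor] at h6
        exact (hx j).1 h6
      · rw [h7, Nat.xor_comm] at h6
        exact (hx j).2 h6

/-- mex property of atoms -/
theorem mex {x : Atom r} {τ : ℕ} (h : τ < val x) : ∃ δ o, Opt x δ o ∧ δ ^^^ gv o = τ := by
  have hlt : τ < 2 ^ (4 * r + 9) := lt_trans h (val_lt x)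
  obtain ⟨o, ho⟩ := isT_exists (r := r) hlt
  have hgo : 0 ^^^ gv o = τ := by rw [Nat.zero_xor, isT_gv ho]
  cases x with
  | b =>
    have h2 : val (Atom.b (r := r)) = 2 := rfl
    refine ⟨τ, 0, ⟨by omega, rfl⟩, by simp⟩
  | c => simp [val] at h
  | z =>
    have h2 : val (Atom.z (r := r)) = 4 := rfl
    by_cases h1 : τ = 1
    · exact ⟨1, {.c}, Or.inl ⟨rfl, rfl⟩, by simp [val, h1]⟩
    · exact ⟨0, o, Or.inr ⟨rfl, τ, h1, by omega, ho⟩, hgo⟩
  | H v =>
    have h2 : val (Atom.H (r := r) v) = v.val + 1 := rfl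
    exact ⟨0, o, ⟨rfl, τ, by omega, ho⟩, hgo⟩
  | s k =>
    have h2 : val (Atom.s (r := r) k) = 4 := rfl
    have := w_ge k.val
    exact ⟨0, o, Or.inr ⟨rfl, τ, by omega, by omega, ho⟩, hgo⟩
  | y k =>
    have h2 : val (Atom.y (r := r) k) = w k.val := rfl
    by_cases h1 : τ = 4
    · exact ⟨0, {.z}, ⟨rfl, Or.inl rfl⟩, by simp [val, h1]⟩
    · exact ⟨0, o, ⟨rfl, Or.inr (Or.inl ⟨τ, h1, by omega, ho⟩)⟩, hgo⟩
  | e k =>
    have h2 : val (Atom.e (r := r) k) = w k.val := rfl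
    exact ⟨0, o, ⟨rfl, Or.inr ⟨τ, by omega, ho⟩⟩, hgo⟩

theorem Emex {τ : ℕ} (h : τ < 2 ^ (4 * r + 9)) : ∃ δ, ∃ o : Multiset (Atom r), EOpt δ o ∧ δ ^^^ gv o = τ := by
  obtain ⟨o, ho⟩ := isT_exists (r := r) h
  have hgo : 0 ^^^ gv o = τ := by rw [Nat.zero_xor, isT_gv ho]
  by_cases h1 : τ ≤ 1
  · exact ⟨τ, {.c}, Or.inl ⟨h1, rfl⟩, by simp [val]⟩
  · by_cases hk : ∃ k : Fin (4 * r + 6), τ = w k.val ∨ τ = w k.val ^^^ 1
    · obtain ⟨k, hk | hk⟩ := hk
      · exact ⟨0, {.e k}, Or.inr (Or.inl ⟨by omega, k, rfl⟩), by simp [val, hk]⟩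
      · exact ⟨1, {.e k}, Or.inr (Or.inl ⟨by omega, k, rfl⟩), by simp [val, hk, Nat.xor_comm]⟩
    · refine ⟨0, o, Or.inr (Or.inr ⟨rfl, τ, by omega, by omega, ?_, ho⟩), hgo⟩
      intro k
      exact ⟨fun h => hk ⟨k, Or.inl h⟩, fun h => hk ⟨k, Or.inr h⟩⟩

end Pool.Agent.MisPer
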