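import Pool.Agent.MisPer.Base

set_option autoImplicit false

namespace Pool.Agent.MisPer

variable {r : ℕ}

theorem cons_eq_single {α : Type} {x a : α} {t : Multiset α} : x ::ₘ t = {a} ↔ x = a ∧ t = 0 := by
  constructor
  · intro h
    have h2 : x ∈ ({a} : Multiset α) := by rw [← h]; simp
    have h3 : x = a := by simpa using h2
    refine ⟨h3, ?_⟩
    subst h3
    have : x ::ₘ t = x ::ₘ 0 := by simpa using h
    exact (Multiset.cons_inj_right x).1 this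
  · rintro ⟨rfl, rfl⟩; rfl

theorem cons_eq_pair {α : Type} {x a b : α} {t : Multiset α} :
    x ::ₘ t = {a, b} ↔ (x = a ∧ t = {b}) ∨ (x = b ∧ t = {a}) := by
  constructor
  · intro h
    have h2 : x ∈ ({a, b} : Multiset α) := by rw [← h]; simp
    have h3 : x = a ∨ x = b := by simpa using h2
    rcases h3 with h3 | h3
    · left; refine ⟨h3, ?_⟩
      subst h3
      exact (Multiset.cons_inj_right x).1 h
    · right; refine ⟨h3, ?_⟩
      subst h3
      rw [Multiset.pair_comm] at h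
      exact (Multiset.cons_inj_right x).1 h
  · rintro (⟨rfl, rfl⟩ | ⟨rfl, rfl⟩)
    · rfl
    · rw [Multiset.pair_comm]; rfl

def G (l : ℕ) (Y : Multiset (Atom r)) : ℕ := (l % 2) ^^^ gv Y

def AN (l : ℕ) (Y : Multiset (Atom r)) : Prop :=
  l % 2 = 0 ∧ (Y = 0 ∨ Y = {.c} ∨ (∃ k, Y = {.s k, .z}) ∨ ∃ k, Y = {.e k, .y k})

def AP (l : ℕ) (Y : Multiset (Atom r)) : Prop :=
  (l % 2 = 1 ∧ (Y = 0 ∨ Y = {.z})) ∨ (l % 2 = 0 ∧ ∃ k, Y = {.s k, .y k})

def PP0 (l : ℕ) (Y : Multiset (Atom r)) : Prop := (G l Y = 0 ∧ ¬ AN l Y) ∨ AP l Y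

theorem mod8 (a b : ℕ) : (a ^^^ b) % 8 = (a % 8) ^^^ (b % 8) := by
  have := Nat.xor_mod_two_pow (a := a) (b := b) (n := 3)
  simpa using this

theorem par (l : ℕ) : l % 2 = 0 ∨ l % 2 = 1 := by omega

/-- a position of `b` kills the exceptional sets -/
theorem not_AN_of_b {l : ℕ} {Y : Multiset (Atom r)} (h : .b ∈ Y) : ¬ AN l Y := by
  rintro ⟨-, rfl | rfl | ⟨k, rfl⟩ | ⟨k, rfl⟩⟩ <;> simp at h

theorem not_AP_of_b {l : ℕ} {Y : Multiset (Atom r)} (h : .b ∈ Y) : ¬ AP l Y := by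
  rintro (⟨-, rfl | rfl⟩ | ⟨-, k, rfl⟩) <;> simp at h

theorem PPT {l x : ℕ} {o t : Multiset (Atom r)} (h : IsT x o) (hG : G l (o + t) = 0) : PP0 l (o + t) := by
  left; refine ⟨hG, not_AN_of_b ?_⟩
  simp [isT_b h]

/-- a non-`P` target with a `T` -/
theorem not_PPT {l x : ℕ} {o t : Multiset (Atom r)} (h : IsT x o) (hG : G l (o + t) ≠ 0) : ¬ PP0 l (o + t) := by
  rintro (⟨h1, -⟩ | h1)
  · exact hG h1
  · exact not_AP_of_b (by simp [isT_b h]) h1

theorem xor_ne {a b c : ℕ} (h : a ≠ b) (hb : c = b) : c ^^^ a ≠ 0 := by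
  subst hb
  intro h1
  apply h
  have := Nat.xor_eq_zero_iff.1 h1
  exact this.symm

end Pool.Agent.MisPer
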