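import Pool.Agent.MisPer.Zero

set_option autoImplicit false

namespace Pool.Agent.MisPer

variable {r : ℕ}

theorem opt_le {x : Atom r} {δ : ℕ} {o : Multiset (Atom r)} (h : Opt x δ o) : δ ≤ 1 := by
  cases x <;> simp only [Opt] at h
  · omega
  · omega
  · omega
  · omega
  · omega
  · omega
  · omega

theorem opt_ne {x : Atom r} {δ : ℕ} {o : Multiset (Atom r)} (h : Opt x δ o) : δ ^^^ gv o ≠ val x := by
  cases x with
  | b =>
    obtain ⟨h1, rfl⟩ := h
    have : δ = 0 ∨ δ = 1 := by omega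
    rcases this with rfl | rfl <;> simp [val]
  | c =>
    rcases h with ⟨rfl, rfl⟩ | ⟨rfl, x, hx, h⟩
    · simp [val]
    · simpa [isT_gv h, val] using hx
  | z =>
    rcases h with ⟨rfl, rfl⟩ | ⟨rfl, x, -, hx, h⟩
    · simp [val]
    · simpa [isT_gv h, val] using hx
  | H v =>
    obtain ⟨rfl, x, hx, h⟩ := h
    rw [isT_gv h]
    simp only [val, Nat.zero_xor]
    omega
  | s k =>
    rcases h with ⟨rfl, rfl⟩ | ⟨rfl, x, hx, -, h⟩
    · simp [val]
    · simpa [isT_gv h, val] using hx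
  | y k =>
    have h8 := w_ge k.val
    obtain ⟨rfl, rfl | ⟨x, -, hx, h⟩ | ⟨j, hj, rfl⟩ | ⟨-, rfl⟩⟩ := h
    · simp only [gv_singleton, val, Nat.zero_xor]; omega
    · simpa [isT_gv h, val] using hx
    · simp only [gv_singleton, val, Nat.zero_xor]
      intro h; have := w_inj h; omega
    · simp only [gv_zero, val, Nat.zero_xor]; omega
  | e k =>
    have h8 := w_ge k.val
    obtain ⟨rfl, rfl | ⟨x, hx, h⟩⟩ := h
    · simp only [gv_singleton, val, Nat.zero_xor]; omega
    · simpa [isT_gv h, val] using hx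

theorem G_shift {l δ : ℕ} (Y : Multiset (Atom r)) (h : δ ≤ 1) : G (l + δ) Y = (l % 2) ^^^ (δ ^^^ gv Y) := by
  unfold G
  rw [← Nat.xor_assoc]
  congr 1
  have : δ = 0 ∨ δ = 1 := by omega
  rcases this with rfl | rfl
  · simp
  · rcases par l with h1 | h1
    · rw [h1, show (l + 1) % 2 = 1 by omega]; rfl
    · rw [h1, show (l + 1) % 2 = 0 by omega]; rfl

theorem G_add {l δ : ℕ} {o t : Multiset (Atom r)} (h : δ ≤ 1) :
    G (l + δ) (o + t) = (δ ^^^ gv o) ^^^ G l t := by
  rw [G_shift _ h, gv_add, G, xlc (δ ^^^ gv o), ← Nat.xor_assoc δ]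

theorem G_cons {l : ℕ} {x : Atom r} {t : Multiset (Atom r)} : G l (x ::ₘ t) = val x ^^^ G l t := by
  rw [G, gv_cons, xlc]; rfl

theorem G_move {l δ : ℕ} {x : Atom r} {o t : Multiset (Atom r)} (h : Opt x δ o) :
    G (l + δ) (o + t) ≠ G l (x ::ₘ t) := by
  rw [G_add (opt_le h), G_cons]
  intro h1
  exact opt_ne h (Nat.xor_left_injective h1)

theorem AP_G {l : ℕ} {Y : Multiset (Atom r)} (h : AP l Y) : G l Y ≠ 0 := by
  have key : G l Y % 8 ≠ 0 := by
    rcases h with ⟨h1, rfl | rfl⟩ | ⟨h1, k, rfl⟩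
    · simp [G, h1]
    · simp [G, h1, val]
    · simp only [G, h1, Multiset.insert_eq_cons, gv_cons, gv_singleton, val, mod8, w_mod]
      decide
  intro h0; rw [h0] at key; simp at key

theorem AN_G {l : ℕ} {Y : Multiset (Atom r)} (h : AN l Y) : G l Y = 0 := by
  rcases h with ⟨h1, rfl | rfl | ⟨k, rfl⟩ | ⟨k, rfl⟩⟩
  · simp [G, h1]
  · simp [G, h1, val]
  · simp [G, h1, val]
  · simp [G, h1, val]

theorem AP_AN {l : ℕ} {Y : Multiset (Atom r)} (h : AP l Y) : ¬ AN l Y :=
  fun h1 => AP_G h (AN_G h1)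

theorem A1_a {l : ℕ} {Y : Multiset (Atom r)} (h : AP l Y) : G (l + 1) Y ≠ 0 ∨ AN (l + 1) Y := by
  rcases h with ⟨h1, rfl | rfl⟩ | ⟨h1, k, rfl⟩
  · right; exact ⟨by omega, Or.inl rfl⟩
  · left
    simp [G, show (l + 1) % 2 = 0 by omega, val]
  · left
    intro h0
    have : G (l + 1) {Atom.s k, Atom.y k} % 8 = 0 := by rw [h0]
    simp only [G, show (l + 1) % 2 = 1 by omega, Multiset.insert_eq_cons, gv_cons, gv_singleton, val, mod8, w_mod] at this
    revert this; decide

theorem ne_of_mod8 {n : ℕ} (h : n % 8 ≠ 0) : n ≠ 0 := by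
  rintro rfl; exact h rfl

theorem A1_x {l δ : ℕ} {x : Atom r} {o t : Multiset (Atom r)} (h : Opt x δ o) (hP : AP (l + δ) (o + t)) :
    G l (x ::ₘ t) ≠ 0 ∨ AN l (x ::ₘ t) := by
  have hb : .b ∉ o + t := fun hb => not_AP_of_b hb hP
  have hbo : .b ∉ o := fun h1 => hb (by simp [h1])
  have hT : ∀ x, ¬ IsT x o := fun x h1 => hbo (isT_b h1)
  cases x with
  | b =>
    left
    obtain ⟨h1, rfl⟩ := h
    rw [zero_add] at hP
    apply ne_of_mod8
    rcases par l with h2 | h2 <;>
    rcases hP with ⟨h3, rfl | rfl⟩ | ⟨h3, k, rfl⟩ <;>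
    simp only [G, h2, Multiset.insert_eq_cons, gv_cons, gv_singleton, gv_zero, val, mod8, w_mod] <;> decide
  | c =>
    rcases h with ⟨rfl, rfl⟩ | ⟨rfl, x, hx, h⟩
    · rw [zero_add] at hP
      rcases hP with ⟨h3, rfl | rfl⟩ | ⟨h3, k, rfl⟩
      · right; exact ⟨by omega, Or.inr (Or.inl rfl)⟩
      · left
        have h2 : l % 2 = 0 := by omega
        simp [G, h2, val]
      · left
        have h2 : l % 2 = 1 := by omega
        apply ne_of_mod8
        simp only [G, h2, Multiset.insert_eq_cons, gv_cons, gv_singleton, gv_zero, val, mod8, w_mod]; decide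
    · exact absurd h (hT x)
  | z =>
    rcases h with ⟨rfl, rfl⟩ | ⟨rfl, x, -, hx, h⟩
    · rcases hP with ⟨h3, h4 | h4⟩ | ⟨h3, k, h4⟩
      · simp at h4
      · rw [Multiset.singleton_add, cons_eq_single] at h4; simp at h4
      · rw [Multiset.singleton_add, cons_eq_pair] at h4; simp at h4
    · exact absurd h (hT x)
  | H v =>
    obtain ⟨rfl, x, hx, h⟩ := h
    exact absurd h (hT x)
  | s j =>
    rcases h with ⟨rfl, rfl⟩ | ⟨rfl, x, hx, -, h⟩
    · rw [zero_add] at hP
      rcases hP with ⟨h3, rfl | rfl⟩ | ⟨h3, k, rfl⟩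
      · left
        have h2 : l % 2 = 0 := by omega
        simp [G, h2, val]
      · right; exact ⟨by omega, Or.inr (Or.inr (Or.inl ⟨j, rfl⟩))⟩
      · left
        have h2 : l % 2 = 1 := by omega
        apply ne_of_mod8
        simp only [G, h2, Multiset.insert_eq_cons, gv_cons, gv_singleton, gv_zero, val, mod8, w_mod]; decide
    · exact absurd h (hT x)
  | y j =>
    have h8 := w_ge j.val
    obtain ⟨rfl, rfl | ⟨x, -, hx, h⟩ | ⟨i, hj, rfl⟩ | ⟨-, rfl⟩⟩ := h
    · rw [Multiset.singleton_add, add_zero] at hP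
      rcases hP with ⟨h3, h4 | h4⟩ | ⟨h3, k, h4⟩
      · simp at h4
      · rw [cons_eq_single] at h4
        obtain ⟨-, rfl⟩ := h4
        left
        apply ne_of_mod8
        simp only [G, h3, gv_cons, gv_zero, val, mod8, w_mod]; decide
      · rw [cons_eq_pair] at h4; simp at h4
    · exact absurd h (hT x)
    · rw [Multiset.singleton_add, add_zero] at hP
      rcases hP with ⟨h3, h4 | h4⟩ | ⟨h3, k, h4⟩
      · simp at h4
      · rw [cons_eq_single] at h4; simp at h4
      · rw [cons_eq_pair] at h4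
        rcases h4 with ⟨h4, -⟩ | ⟨h4, rfl⟩
        · simp at h4
        left
        apply ne_of_mod8
        simp only [G, h3, gv_cons, gv_singleton, val, mod8, w_mod]; decide
    · rw [zero_add, add_zero] at hP
      rcases hP with ⟨h3, rfl | rfl⟩ | ⟨h3, k, rfl⟩
      · left
        apply ne_of_mod8
        simp only [G, h3, gv_cons, gv_zero, val, mod8, w_mod]; decide
      · left
        apply ne_of_mod8
        simp only [G, h3, gv_cons, gv_singleton, gv_zero, val, mod8, w_mod]; decide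
      · left
        apply ne_of_mod8
        simp only [G, h3, Multiset.insert_eq_cons, gv_cons, gv_singleton, gv_zero, val, mod8, w_mod]; decide
  | e j =>
    obtain ⟨rfl, rfl | ⟨x, hx, h⟩⟩ := h
    · rw [Multiset.singleton_add, add_zero] at hP
      rcases hP with ⟨h3, h4 | h4⟩ | ⟨h3, k, h4⟩
      · simp at h4
      · rw [cons_eq_single] at h4; simp at h4
      · rw [cons_eq_pair] at h4
        rcases h4 with ⟨h4, rfl⟩ | ⟨h4, -⟩
        · right
          have : j = k := by simpa using h4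
          subst this
          exact ⟨h3, Or.inr (Or.inr (Or.inr ⟨j, rfl⟩))⟩
        · simp at h4
    · exact absurd h (hT x)

/-- from an `AP` position there is no move to `PP0`: `a`-move -/
theorem A2_a {l : ℕ} {Y : Multiset (Atom r)} (h : AP (l + 1) Y) : ¬ PP0 l Y := by
  rcases h with ⟨h1, rfl | rfl⟩ | ⟨h1, k, rfl⟩
  · have h2 : l % 2 = 0 := by omega
    rintro (⟨-, h⟩ | (⟨h, -⟩ | ⟨-, k, h⟩))
    · exact h ⟨h2, Or.inl rfl⟩
    · omega
    · simp at h
  · have h2 : l % 2 = 0 := by omega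
    rintro (⟨h, -⟩ | (⟨h, -⟩ | ⟨-, k, h⟩))
    · simp [G, h2, val] at h
    · omega
    · have : (Atom.z : Atom r) ∈ ({Atom.s k, Atom.y k} : Multiset (Atom r)) := by rw [← h]; simp
      simp at this
  · have h2 : l % 2 = 1 := by omega
    rintro (⟨h, -⟩ | (⟨h, h3 | h3⟩ | ⟨h, -⟩))
    · apply ne_of_mod8 _ h
      simp only [G, h2, Multiset.insert_eq_cons, gv_cons, gv_singleton, gv_zero, val, mod8, w_mod]; decide
    · simp at h3
    · have : (Atom.s k : Atom r) ∈ ({Atom.z} : Multiset (Atom r)) := by rw [← h3]; simp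
      simp at this
    · omega

theorem A2_x {l δ : ℕ} {x : Atom r} {o t : Multiset (Atom r)} (hP : AP l (x ::ₘ t)) (h : Opt x δ o) :
    ¬ PP0 (l + δ) (o + t) := by
  rcases hP with ⟨h1, h2 | h2⟩ | ⟨h1, k, h2⟩
  · simp at h2
  · rw [cons_eq_single] at h2
    obtain ⟨rfl, rfl⟩ := h2
    rcases h with ⟨rfl, rfl⟩ | ⟨rfl, x, hx, -, h⟩
    · have h3 : (l + 1) % 2 = 0 := by omega
      rw [add_zero]
      rintro (⟨-, h⟩ | (⟨h, -⟩ | ⟨-, k, h⟩))
      · exact h ⟨h3, Or.inr (Or.inl rfl)⟩
      · omega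
      · have : (Atom.s k : Atom r) ∈ ({Atom.c} : Multiset (Atom r)) := by rw [h]; simp
        simp at this
    · apply not_PPT h
      rw [add_zero, add_zero, G, h1, isT_gv h]
      intro h0
      exact hx (Nat.xor_eq_zero_iff.1 h0).symm
  · rw [cons_eq_pair] at h2
    rcases h2 with ⟨rfl, rfl⟩ | ⟨rfl, rfl⟩
    · rcases h with ⟨rfl, rfl⟩ | ⟨rfl, x, -, hx, h⟩
      · have h3 : (l + 1) % 2 = 1 := by omega
        rw [zero_add]
        rintro (⟨h, -⟩ | (⟨h, h4 | h4⟩ | ⟨h, -⟩))
        · apply ne_of_mod8 _ h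
          simp only [G, h3, gv_singleton, val, mod8, w_mod]; decide
        · simp at h4
        · simp at h4
        · omega
      · apply not_PPT h
        rw [add_zero, G, h1, gv_add, isT_gv h, gv_singleton, val, Nat.zero_xor]
        intro h0
        exact hx (Nat.xor_eq_zero_iff.1 h0)
    · obtain ⟨rfl, rfl | ⟨x, hx, -, h⟩ | ⟨i, hj, rfl⟩ | ⟨-, rfl⟩⟩ := h
      · rw [add_zero]
        rintro (⟨-, h⟩ | (⟨h, -⟩ | ⟨-, j, h⟩))
        · apply h
          refine ⟨h1, Or.inr (Or.inr (Or.inl ⟨k, ?_⟩))⟩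
          rw [Multiset.singleton_add, Multiset.pair_comm]; rfl
        · omega
        · rw [Multiset.singleton_add, cons_eq_pair] at h
          simp at h
      · apply not_PPT h
        rw [add_zero, G, h1, gv_add, isT_gv h, gv_singleton, val, Nat.zero_xor]
        intro h0
        exact hx (Nat.xor_eq_zero_iff.1 h0)
      · rw [add_zero]
        rintro (⟨h, -⟩ | (⟨h, -⟩ | ⟨-, j, h⟩))
        · apply ne_of_mod8 _ h
          simp only [G, h1, gv_add, gv_singleton, val, mod8, w_mod]; decide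
        · omega
        · rw [Multiset.singleton_add, cons_eq_pair] at h
          rcases h with ⟨h, -⟩ | ⟨h, h4⟩
          · simp at h
          · simp only [Atom.y.injEq] at h
            simp only [Multiset.singleton_inj, Atom.s.injEq] at h4
            subst h
            subst h4
            omega
      · rw [add_zero, zero_add]
        rintro (⟨h, -⟩ | (⟨h, -⟩ | ⟨-, j, h⟩))
        · simp [G, h1, val] at h
        · omega
        · rw [eq_comm, Multiset.insert_eq_cons, cons_eq_single] at h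
          simp at h

theorem A_a {l : ℕ} {Y : Multiset (Atom r)} (hP : PP0 (l + 1) Y) : ¬ PP0 l Y := by
  rcases hP with ⟨h1, h2⟩ | h1
  · rintro (⟨h3, h4⟩ | h3)
    · have := G_shift (l := l) (δ := 1) Y (le_refl _)
      rw [h1] at this
      rw [G] at h3
      rw [xlc, h3] at this
      simp at this
    · rcases A1_a h3 with h | h
      · exact h h1
      · exact h2 h
  · exact A2_a h1

theorem A_x {l δ : ℕ} {x : Atom r} {o t : Multiset (Atom r)} (hP : PP0 l (x ::ₘ t)) (h : Opt x δ o) :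
    ¬ PP0 (l + δ) (o + t) := by
  rcases hP with ⟨h1, h2⟩ | h1
  · rintro (⟨h3, h4⟩ | h3)
    · exact G_move h (h3.trans h1.symm)
    · rcases A1_x h h3 with h | h
      · exact h h1
      · exact h2 h
  · exact A2_x h1 h

end Pool.Agent.MisPer
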