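import Pool.Agent.MisPer.Zero2

set_option autoImplicit false

namespace Pool.Agent.MisPer

variable {r : ℕ}

/-- there is a move from `(l, Y)` to a `PP0` position -/
def Good (l : ℕ) (Y : Multiset (Atom r)) : Prop :=
  (∃ l', l = l' + 1 ∧ PP0 l' Y) ∨ ∃ x δ o t, Y = x ::ₘ t ∧ Opt x δ o ∧ PP0 (l + δ) (o + t)

theorem good_x {l δ : ℕ} {x : Atom r} {o t : Multiset (Atom r)} (h : Opt x δ o) (hP : PP0 (l + δ) (o + t)) :
    Good l (x ::ₘ t) := Or.inr ⟨x, δ, o, t, rfl, h, hP⟩

theorem G_lt (l : ℕ) (Y : Multiset (Atom r)) : G l Y < 2 ^ (4 * r + 9) := by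
  apply Nat.xor_lt_two_pow _ (gv_lt Y)
  have := M_gt (r := r); omega

/-- a `T`-option hitting the right value -/
theorem good_T {l : ℕ} {x : Atom r} {t : Multiset (Atom r)}
    (h : ∀ o : Multiset (Atom r), IsT (val x ^^^ G l (x ::ₘ t)) o → Opt x 0 o) : Good l (x ::ₘ t) := by
  obtain ⟨o, ho⟩ := isT_exists (r := r) (Nat.xor_lt_two_pow (val_lt x) (G_lt l (x ::ₘ t)))
  refine good_x (h o ho) (PPT ho ?_)
  rw [G_add (h := by omega), isT_gv ho, Nat.zero_xor, G_cons, ← Nat.xor_assoc (val x), Nat.xor_self, Nat.zero_xor,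
    Nat.xor_self]

theorem xor_self_ne {a g : ℕ} (h : g ≠ 0) : a ^^^ g ≠ a := by
  intro h1
  have : a ^^^ g = a ^^^ 0 := by simpa using h1
  exact h (Nat.xor_right_injective this)

theorem B_AN {l : ℕ} {Y : Multiset (Atom r)} (h : AN l Y) : (l = 0 ∧ Y = 0) ∨ Good l Y := by
  obtain ⟨h1, rfl | rfl | ⟨k, rfl⟩ | ⟨k, rfl⟩⟩ := h
  · by_cases h0 : l = 0
    · exact Or.inl ⟨h0, rfl⟩
    · right; left
      exact ⟨l - 1, by omega, Or.inr (Or.inl ⟨by omega, Or.inl rfl⟩)⟩
  · right
    have := good_x (l := l) (x := Atom.c) (δ := 1) (o := 0) (t := (0 : Multiset (Atom r))) (Or.inl ⟨rfl, rfl⟩)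
      (Or.inr (Or.inl ⟨by omega, Or.inl rfl⟩))
    exact this
  · right
    have := good_x (l := l) (x := Atom.s k) (δ := 1) (o := 0) (t := ({Atom.z} : Multiset (Atom r)))
      (Or.inl ⟨rfl, rfl⟩) (Or.inr (Or.inl ⟨by omega, Or.inr rfl⟩))
    exact this
  · right
    have := good_x (l := l) (x := Atom.e k) (δ := 0) (o := {Atom.s k}) (t := ({Atom.y k} : Multiset (Atom r)))
      ⟨rfl, Or.inl rfl⟩ (Or.inr (Or.inr ⟨by omega, k, rfl⟩))
    exact this

theorem B_c {l : ℕ} {t : Multiset (Atom r)} (hG : G l (.c ::ₘ t) ≠ 0) : Good l (.c ::ₘ t) := by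
  apply good_T
  intro o ho
  exact Or.inr ⟨rfl, _, by simpa [val] using hG, ho⟩

theorem B_e {l : ℕ} {k : Fin (4 * r + 6)} {t : Multiset (Atom r)} (hG : G l (.e k ::ₘ t) ≠ 0) :
    Good l (.e k ::ₘ t) := by
  apply good_T
  intro o ho
  exact ⟨rfl, Or.inr ⟨_, xor_self_ne hG, ho⟩⟩

theorem B_z {l : ℕ} {t : Multiset (Atom r)} (hG : G l (.z ::ₘ t) ≠ 0) (hP : ¬ AP l (.z ::ₘ t)) :
    Good l (.z ::ₘ t) := by
  by_cases h5 : G l (.z ::ₘ t) = 5
  · refine good_x (x := Atom.z) (δ := 1) (o := {.c}) (Or.inl ⟨rfl, rfl⟩) ?_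
    left
    have hGt : G l t = 1 := by
      rw [G_cons] at h5
      have : 4 ^^^ (4 ^^^ G l t) = 4 ^^^ 5 := by rw [← h5]; rfl
      rw [← Nat.xor_assoc, Nat.xor_self, Nat.zero_xor] at this
      exact this
    constructor
    · rw [G_add (le_refl _), gv_singleton, val, hGt]; rfl
    · rintro ⟨h2, h | h | ⟨k, h⟩ | ⟨k, h⟩⟩
      · simp at h
      · rw [Multiset.singleton_add, cons_eq_single] at h
        obtain ⟨-, rfl⟩ := h
        exact hP (Or.inl ⟨by omega, Or.inr rfl⟩)
      · rw [Multiset.singleton_add, cons_eq_pair] at h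
        simp at h
      · rw [Multiset.singleton_add, cons_eq_pair] at h
        simp at h
  · apply good_T
    intro o ho
    refine Or.inr ⟨rfl, _, ?_, xor_self_ne hG, ho⟩
    intro h1
    apply h5
    have : 4 ^^^ (4 ^^^ G l (.z ::ₘ t)) = 4 ^^^ 1 := by
      have h2 : 4 ^^^ G l (.z ::ₘ t) = 1 := h1
      rw [h2]
    rw [← Nat.xor_assoc, Nat.xor_self, Nat.zero_xor] at this
    exact this

theorem testBit_w {j k : ℕ} : (w k).testBit (j + 3) = decide (k = j) := by
  unfold w
  rw [Nat.testBit_two_pow]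
  by_cases h : k = j
  · subst h; simp
  · have : ¬ (k + 3 = j + 3) := by omega
    simp [h]

theorem w_key {j k : ℕ} (h : w j ^^^ (4 ^^^ w k) < w j) : j = k := by
  by_contra hne
  have h1 : (w j ^^^ (4 ^^^ w k)).testBit (j + 3) = true := by
    rw [Nat.testBit_xor, Nat.testBit_xor, testBit_w, testBit_w]
    have h4 : Nat.testBit 4 (j + 3) = false := by
      rw [Nat.testBit_eq_false_of_lt]
      calc 4 < 2 ^ 3 := by norm_num
        _ ≤ 2 ^ (j + 3) := Nat.pow_le_pow_right (by norm_num) (by omega)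
    rw [h4]
    have : ¬ k = j := fun h => hne h.symm
    simp [this]
  have h2 := Nat.ge_two_pow_of_testBit h1
  have h3 : w j = 2 ^ (j + 3) := rfl
  omega

theorem xor_val_H {g : ℕ} {v : Fin (2 ^ (4 * r + 9) - 1)} (h : val (Atom.H (r := r) v) ^^^ g < val (Atom.H (r := r) v)) :
    val (Atom.H (r := r) v) ^^^ g ≤ v.val := by
  have : val (Atom.H (r := r) v) = v.val + 1 := rfl
  omega

/-- the case with an `s`, no `c, e, z` -/
theorem B_s {l : ℕ} {k : Fin (4 * r + 6)} {t : Multiset (Atom r)} (hG : G l (.s k ::ₘ t) ≠ 0)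
    (hP : ¬ AP l (.s k ::ₘ t)) (hc : .c ∉ t) (hz : .z ∉ t) (he : ∀ j, .e j ∉ t) :
    Good l (.s k ::ₘ t) := by
  have h8 := w_ge k.val
  by_cases h5 : val (Atom.s k) ^^^ G l (.s k ::ₘ t) = w k.val
  · have hg : G l (.s k ::ₘ t) = 4 ^^^ w k.val := by
      have h6 : 4 ^^^ G l (.s k ::ₘ t) = w k.val := h5
      rw [← h6, ← Nat.xor_assoc, Nat.xor_self, Nat.zero_xor]
    rcases nim (l % 2) (.s k ::ₘ t) hG with h | ⟨x, hx, h⟩
    · exfalso
      have h7 : gv (.s k ::ₘ t) = 0 := by omega
      have h9 : G l (.s k ::ₘ t) = l % 2 := by rw [G, h7, Nat.xor_zero]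
      rw [h9] at hg
      have : (4 ^^^ w k.val) % 8 = 4 := by rw [mod8, w_mod]; decide
      omega
    · have h' : val x ^^^ G l (.s k ::ₘ t) < val x := h
      rw [hg] at h'
      have hbig : ∀ a, a < 8 → ¬ (a ^^^ (4 ^^^ w k.val) < 8) := by
        intro a ha hlt
        have h10 : (a ^^^ (4 ^^^ w k.val)).testBit (k.val + 3) = true := by
          rw [Nat.testBit_xor, Nat.testBit_xor, testBit_w]
          have h4 : ∀ b, b < 8 → Nat.testBit b (k.val + 3) = false := by
            intro b hb
            rw [Nat.testBit_eq_false_of_lt]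
            calc b < 2 ^ 3 := by simpa using hb
              _ ≤ 2 ^ (k.val + 3) := Nat.pow_le_pow_right (by norm_num) (by omega)
          rw [h4 a ha, h4 4 (by norm_num)]
          simp
        have := Nat.ge_two_pow_of_testBit h10
        have h3 : w k.val = 2 ^ (k.val + 3) := rfl
        omega
      obtain ⟨Y', hY'⟩ := Multiset.exists_cons_of_mem hx
      cases x with
      | b => exact absurd (by have : val (Atom.b (r := r)) = 2 := rfl
                              omega) (hbig _ (show val (Atom.b (r := r)) < 8 by simp [val]))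
      | c => simp [val] at h'
      | z => exact absurd (by have : val (Atom.z (r := r)) = 4 := rfl
                              omega) (hbig _ (show val (Atom.z (r := r)) < 8 by simp [val]))
      | s j => exact absurd (by have : val (Atom.s (r := r) j) = 4 := rfl
                                omega) (hbig _ (show val (Atom.s (r := r) j) < 8 by simp [val]))
      | H v =>
        rw [hY']
        apply good_T
        intro o ho
        rw [← hY'] at ho
        exact ⟨rfl, _, xor_val_H h, ho⟩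
      | e j =>
        exfalso
        simp only [Multiset.mem_cons, reduceCtorEq, false_or] at hx
        exact he j hx
      | y j =>
        have hjk : j.val = k.val := w_key h'
        have hjk' : j = k := Fin.ext hjk
        subst hjk'
        have hy : .y j ∈ t := by simpa using hx
        obtain ⟨t', rfl⟩ := Multiset.exists_cons_of_mem hy
        rw [Multiset.cons_swap]
        refine good_x (x := Atom.y j) (δ := 0) (o := {.z}) ⟨rfl, Or.inl rfl⟩ ?_
        left
        constructor
        · rw [G_add (by omega), gv_singleton, Nat.zero_xor]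
          rw [Multiset.cons_swap, G_cons] at hg
          have : G l (Atom.s j ::ₘ t') = 4 := by
            have h11 : w j.val ^^^ (w j.val ^^^ G l (Atom.s j ::ₘ t')) = w j.val ^^^ (4 ^^^ w j.val) := by
              rw [← hg]; rfl
            rw [← Nat.xor_assoc, Nat.xor_self, Nat.zero_xor, xlc, Nat.xor_self, Nat.xor_zero] at h11
            exact h11
          rw [this]; simp [val]
        · rintro ⟨h2, h | h | ⟨i, h⟩ | ⟨i, h⟩⟩
          · simp at h
          · rw [Multiset.singleton_add, cons_eq_single] at h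
            simp at h
          · rw [Multiset.singleton_add, cons_eq_pair] at h
            rcases h with ⟨h, -⟩ | ⟨-, h⟩
            · simp at h
            · rw [cons_eq_single] at h
              obtain ⟨-, rfl⟩ := h
              apply hP
              right
              refine ⟨by omega, j, ?_⟩
              rfl
          · rw [Multiset.singleton_add, cons_eq_pair] at h
            simp at h
  · apply good_T
    intro o ho
    exact Or.inr ⟨rfl, _, xor_self_ne hG, h5, ho⟩

/-- no `c, e, z, s` -/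
theorem B_rest {l : ℕ} {Y : Multiset (Atom r)} (hG : G l Y ≠ 0)
    (hP : ¬ AP l Y) (hc : .c ∉ Y) (hz : .z ∉ Y) (he : ∀ j, .e j ∉ Y) (hs : ∀ j, .s j ∉ Y) :
    Good l Y := by
  rcases nim (l % 2) Y hG with h | ⟨x, hx, h⟩
  · have h1 : l % 2 = 1 := by omega
    have h2 : gv Y = 0 := by omega
    left
    refine ⟨l - 1, by omega, Or.inl ⟨?_, ?_⟩⟩
    · rw [G, h2, show (l - 1) % 2 = 0 by omega]; rfl
    · rintro ⟨-, rfl | rfl | ⟨i, rfl⟩ | ⟨i, rfl⟩⟩
      · exact hP (Or.inl ⟨h1, Or.inl rfl⟩)
      · simp at hc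
      · simp at hz
      · exact he i (by simp)
  · have h' : val x ^^^ G l Y < val x := h
    obtain ⟨t, rfl⟩ := Multiset.exists_cons_of_mem hx
    cases x with
    | b =>
      have key : ∀ δ, δ ≤ 1 → G (l + δ) t = 0 → Good l (.b ::ₘ t) := by
        intro δ hδ h0
        by_cases ht : t = 0
        · subst ht
          -- Y = {b}: move to an odd number of a's
          by_cases hl : l % 2 = 1
          · refine good_x (x := Atom.b) (δ := 0) (o := 0) ⟨by omega, rfl⟩ ?_
            exact Or.inr (Or.inl ⟨by omega, Or.inl rfl⟩)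
          · refine good_x (x := Atom.b) (δ := 1) (o := 0) ⟨by omega, rfl⟩ ?_
            exact Or.inr (Or.inl ⟨by omega, Or.inl rfl⟩)
        · refine good_x (x := Atom.b) (δ := δ) (o := 0) ⟨hδ, rfl⟩ ?_
          left
          rw [zero_add]
          refine ⟨h0, ?_⟩
          rintro ⟨-, rfl | rfl | ⟨i, rfl⟩ | ⟨i, rfl⟩⟩
          · exact ht rfl
          · simp at hc
          · simp at hz
          · exact he i (by simp)
      have h2 : val (Atom.b (r := r)) = 2 := rfl
      rw [h2] at h'
      have h3 : (2 ^^^ G l (.b ::ₘ t)) = G l t := by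
        rw [G_cons, h2, ← Nat.xor_assoc, Nat.xor_self, Nat.zero_xor]
      rw [h3] at h'
      apply key (G l t) (by omega)
      rw [G_shift _ (by omega)]
      have : G l t = 0 ∨ G l t = 1 := by omega
      rw [xlc]
      show G l t ^^^ G l t = 0
      exact Nat.xor_self _
    | c => simp at hc
    | z => simp at hz
    | s j => exact absurd (by simp) (hs j)
    | e j => exact absurd (by simp) (he j)
    | H v =>
      apply good_T
      intro o ho
      exact ⟨rfl, _, xor_val_H h, ho⟩
    | y k =>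
      by_cases h4 : val (Atom.y k) ^^^ G l (Atom.y k ::ₘ t) = 4
      · refine good_x (x := Atom.y k) (δ := 0) (o := {.z}) ⟨rfl, Or.inl rfl⟩ ?_
        left
        constructor
        · rw [G_add (by omega), gv_singleton, Nat.zero_xor]
          rw [G_cons, ← Nat.xor_assoc, Nat.xor_self, Nat.zero_xor] at h4
          rw [h4]; simp [val]
        · rintro ⟨h2, h | h | ⟨i, h⟩ | ⟨i, h⟩⟩
          · simp at h
          · rw [Multiset.singleton_add, cons_eq_single] at h
            simp at h
          · rw [Multiset.singleton_add, cons_eq_pair] at h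
            rcases h with ⟨h, -⟩ | ⟨-, rfl⟩
            · simp at h
            · exact hs i (by simp)
          · rw [Multiset.singleton_add, cons_eq_pair] at h
            simp at h
      · apply good_T
        intro o ho
        refine ⟨rfl, Or.inr (Or.inl ⟨_, h4, ?_, ho⟩)⟩
        exact ne_of_lt h'

theorem B_main {l : ℕ} {Y : Multiset (Atom r)} (h : ¬ PP0 l Y) : (l = 0 ∧ Y = 0) ∨ Good l Y := by
  by_cases hAN : AN l Y
  · exact B_AN hAN
  right
  have hP : ¬ AP l Y := fun h1 => h (Or.inr h1)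
  have hG : G l Y ≠ 0 := fun h1 => h (Or.inl ⟨h1, hAN⟩)
  by_cases hc : .c ∈ Y
  · obtain ⟨t, rfl⟩ := Multiset.exists_cons_of_mem hc
    exact B_c hG
  by_cases he : ∃ k, .e k ∈ Y
  · obtain ⟨k, he⟩ := he
    obtain ⟨t, rfl⟩ := Multiset.exists_cons_of_mem he
    exact B_e hG
  have he' : ∀ k, .e k ∉ Y := fun k hk => he ⟨k, hk⟩
  by_cases hz : .z ∈ Y
  · obtain ⟨t, rfl⟩ := Multiset.exists_cons_of_mem hz
    exact B_z hG hP
  by_cases hs : ∃ k, .s k ∈ Y
  · obtain ⟨k, hs⟩ := hs
    obtain ⟨t, rfl⟩ := Multiset.exists_cons_of_mem hs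
    refine B_s hG hP ?_ ?_ ?_
    · intro h1; exact hc (by simp [h1])
    · intro h1; exact hz (by simp [h1])
    · intro j h1; exact he' j (by simp [h1])
  · exact B_rest hG hP hc hz he' (fun k hk => hs ⟨k, hk⟩)

end Pool.Agent.MisPer
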